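import Pool.Agent.H23.GLM.Conv

/-! Convexity to the right of the critical line and its reflection, for functions on a strip. -/

set_option autoImplicit false

open Complex MeasureTheory Set Filter Topology Metric

namespace Pool.Agent.H31.GL

open Pool.Agent.H23.GLH Pool.Agent.H23.GLM

variable {f : ℂ → ℂ} {Q A B a w δ : ℝ} {k n : ℕ}

/-- Convexity between the lines `Re z = 0` and `Re z = w`. -/
theorem conv_strip (hf : ∀ z : ℂ, -(1 / 2) < z.re → DifferentiableAt ℂ f z) (hQ1 : 1 ≤ Q)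
    (hA : 0 ≤ A)
    (hgrow : ∀ z : ℂ, -(1 / 4) ≤ z.re → z.re ≤ w → ‖f z‖ ≤ A * (Q * (1 + |z.im|) ^ n) ^ k)
    (ha : 0 ≤ a) (hak : a ≤ k) (hB : 0 < B) (hw : 0 < w)
    (hline : ∀ v : ℝ, ‖f (v * I)‖ ≤ B * (Q * (1 + |v|) ^ n) ^ a)
    (hedge : ∀ z : ℂ, z.re = w → ‖f z‖ ≤ B * Q ^ δ) {z : ℂ} (h0 : 0 ≤ z.re) (h1 : z.re ≤ w) :
    ‖f z‖ ≤ B * 2 ^ (n * k) * ‖1 + z‖ ^ (n * k) * Q ^ (a - (a - δ) / w * z.re) := by
  have hQ0 : 0 < Q := by linarith
  set β := (a - δ) / w with hβ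
  set P := B * 2 ^ (n * k) * Q ^ a with hP
  set g : ℂ → ℂ := fun z => ((1 + z) ^ (n * k))⁻¹ * f z * cexp (((β * Real.log Q : ℝ) : ℂ) * z)
    with hg
  have hnormg : ∀ z : ℂ, ‖g z‖ = ‖f z‖ / ‖1 + z‖ ^ (n * k) * Q ^ (β * z.re) := by
    intro z
    rw [hg]
    simp only
    rw [norm_mul, norm_mul, norm_inv, norm_pow, norm_cexp_real_mul hQ0, ← div_eq_inv_mul]
  have hstrip : closure (re ⁻¹' Ioo 0 w) ⊆ re ⁻¹' Icc 0 w :=
    closure_minimal (preimage_mono Ioo_subset_Icc_self)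
      (isClosed_Icc.preimage Complex.continuous_re)
  have hg_diff : DiffContOnCl ℂ g (re ⁻¹' Ioo 0 w) := by
    refine DifferentiableOn.diffContOnCl fun z hz => ?_
    have hz0 : 0 ≤ z.re := (hstrip hz).1
    have h1 : DifferentiableAt ℂ (fun z : ℂ => ((1 + z) ^ (n * k))⁻¹) z :=
      DifferentiableAt.inv (by fun_prop) (one_add_pow_ne_zero hz0 (n * k))
    have h2 : DifferentiableAt ℂ
        (fun z : ℂ => cexp (((β * Real.log Q : ℝ) : ℂ) * z)) z := by fun_prop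
    exact ((h1.mul (hf z (by linarith))).mul h2).differentiableWithinAt
  have hgbdd : ∀ z : ℂ, 0 ≤ z.re → z.re ≤ w →
      ‖g z‖ ≤ A * (Q ^ k * 2 ^ (n * k)) * Q ^ (|β| * w) := by
    intro z hz hzw
    have hn := one_le_norm_one_add hz
    rw [hnormg]
    have e1 : Q ^ (β * z.re) ≤ Q ^ (|β| * w) := by
      apply Real.rpow_le_rpow_of_exponent_le hQ1
      calc β * z.re ≤ |β| * z.re := mul_le_mul_of_nonneg_right (le_abs_self β) hz
        _ ≤ |β| * w := by gcongr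
    have e2 : ‖f z‖ / ‖1 + z‖ ^ (n * k) ≤ A * (Q ^ k * 2 ^ (n * k)) := by
      rw [div_le_iff₀ (pow_pos (by linarith) _)]
      refine (hgrow z (by linarith) hzw).trans ?_
      have h1 := one_add_im_le hz
      have h2 : (1 + |z.im|) ^ (n * k) ≤ (2 * ‖1 + z‖) ^ (n * k) := by gcongr
      rw [mul_pow] at h2
      calc A * (Q * (1 + |z.im|) ^ n) ^ k = A * Q ^ k * (1 + |z.im|) ^ (n * k) := by
            rw [mul_pow, ← pow_mul]; ring
        _ ≤ A * Q ^ k * (2 ^ (n * k) * ‖1 + z‖ ^ (n * k)) := by gcongr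
        _ = _ := by ring
    gcongr
  have hle0 : ∀ z : ℂ, z.re = 0 → ‖g z‖ ≤ P := by
    intro z hz
    have hzv : z = (z.im : ℂ) * I := by
      apply Complex.ext <;> simp [hz]
    set v := z.im with hv
    have hn : 1 ≤ ‖(1 : ℂ) + v * I‖ := one_le_norm_one_add (by simp)
    rw [hnormg, hz, mul_zero, Real.rpow_zero, mul_one, hzv, div_le_iff₀ (pow_pos (by linarith) _)]
    refine (hline v).trans ?_
    have hv1 : 1 ≤ 1 + |v| := by have := abs_nonneg v; linarith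
    have h5 := qpow_le (n := n) hQ1 ha hak hv1
    have h6 : (1 + |v|) ^ (n * k) ≤ (2 * ‖(1 : ℂ) + v * I‖) ^ (n * k) := by
      have := one_add_abs_le_norm v
      gcongr
    have hQx : 0 ≤ Q ^ a := by positivity
    calc B * (Q * (1 + |v|) ^ n) ^ a ≤ B * (Q ^ a * (2 * ‖(1 : ℂ) + v * I‖) ^ (n * k)) :=
          mul_le_mul_of_nonneg_left (h5.trans (mul_le_mul_of_nonneg_left h6 hQx)) hB.le
      _ = P * ‖(1 : ℂ) + v * I‖ ^ (n * k) := by rw [hP, mul_pow]; ring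
  have hlew : ∀ z : ℂ, z.re = w → ‖g z‖ ≤ P := by
    intro z hz
    have hn := one_le_norm_one_add (z := z) (by rw [hz]; exact hw.le)
    rw [hnormg, hz]
    have e1 : β * w = a - δ := by rw [hβ]; field_simp
    rw [e1, hP]
    have e2 : ‖f z‖ / ‖1 + z‖ ^ (n * k) ≤ B * 2 ^ (n * k) * Q ^ δ := by
      calc ‖f z‖ / ‖1 + z‖ ^ (n * k) ≤ ‖f z‖ := div_le_self (norm_nonneg _) (one_le_pow₀ hn)
        _ ≤ B * Q ^ δ := hedge z hz
        _ = B * 1 * Q ^ δ := by ring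
        _ ≤ B * 2 ^ (n * k) * Q ^ δ := by
            have : (1:ℝ) ≤ 2 ^ (n * k) := one_le_pow₀ (by norm_num)
            gcongr
    calc ‖f z‖ / ‖1 + z‖ ^ (n * k) * Q ^ (a - δ) ≤ B * 2 ^ (n * k) * Q ^ δ * Q ^ (a - δ) := by
          gcongr
      _ = B * 2 ^ (n * k) * (Q ^ δ * Q ^ (a - δ)) := by ring
      _ = _ := by rw [← Real.rpow_add hQ0]; congr 2; ring
  have hmain : ‖g z‖ ≤ P := by
    refine PhragmenLindelof.vertical_strip hg_diff ⟨0, ?_, 0, ?_⟩ hle0 hlew h0 h1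
    · rw [sub_zero]; positivity
    · refine Asymptotics.IsBigO.of_bound (A * (Q ^ k * 2 ^ (n * k)) * Q ^ (|β| * w)) ?_
      rw [Filter.eventually_inf_principal]
      refine Filter.Eventually.of_forall ?_
      intro z hz
      simpa using hgbdd z hz.1.le hz.2.le
  rw [hnormg] at hmain
  have hn := one_le_norm_one_add h0
  have hnp : 0 < ‖1 + z‖ ^ (n * k) := pow_pos (by linarith) _
  have hq : 0 < Q ^ (β * z.re) := Real.rpow_pos_of_pos hQ0 _
  rw [div_mul_eq_mul_div, div_le_iff₀ hnp, ← le_div_iff₀ hq] at hmain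
  refine hmain.trans (le_of_eq ?_)
  rw [Real.rpow_sub hQ0, hP]
  ring

/-- The two sided bound near the critical line. -/
theorem two_strip (hf : ∀ z : ℂ, -(1 / 2) < z.re → DifferentiableAt ℂ f z)
    (hQ1 : 1 ≤ Q) (hA : 1 ≤ A)
    (hgrow : ∀ z : ℂ, -(1 / 4) ≤ z.re → z.re ≤ w → ‖f z‖ ≤ A * (Q * (1 + |z.im|) ^ n) ^ k)
    (ha : 0 ≤ a) (hak : a ≤ k) (hB : 0 < B) (hw : 1 / 4 ≤ w)
    (hline : ∀ v : ℝ, ‖f (v * I)‖ ≤ B * (Q * (1 + |v|) ^ n) ^ a)
    (hedge : ∀ z : ℂ, z.re = w → ‖f z‖ ≤ B * Q ^ δ)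
    (hrefl : ∀ x y : ℝ, 0 < x → x ≤ 1 / 4 → ‖f (((-x : ℝ) : ℂ) + y * I)‖ ≤
      A * (Q * (1 + |y|) ^ n) ^ x * ‖f (x + y * I)‖)
    {z : ℂ} (hz : ‖z‖ ≤ 1 / 4) :
    ‖f z‖ * Q ^ (1 / 2 * z.re) ≤
      A * 2 ^ n * (4 ^ (n * k) * B) * Q ^ (a + (1 / 2 - (a - δ) / w) * |z.re|) := by
  have hQ0 : 0 < Q := by linarith
  have hA0 : 0 ≤ A := by linarith
  have hre := (Complex.abs_re_le_norm z).trans hz
  have him := (Complex.abs_im_le_norm z).trans hz
  have e4 : (4:ℝ) ^ (n * k) = 2 ^ (n * k) * 2 ^ (n * k) := by rw [← mul_pow]; norm_num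
  have right : ∀ z : ℂ, ‖z‖ ≤ 1 / 4 → 0 ≤ z.re →
      ‖f z‖ ≤ 4 ^ (n * k) * B * Q ^ (a - (a - δ) / w * z.re) := by
    intro z hz hz0
    have h1 := (Complex.abs_re_le_norm z).trans hz
    rw [abs_of_nonneg hz0] at h1
    have h2 := conv_strip hf hQ1 hA0 hgrow ha hak hB (by linarith) hline hedge hz0 (by linarith)
    have h3 : ‖1 + z‖ ≤ 2 := by
      have := norm_add_le (1:ℂ) z
      rw [norm_one] at this
      linarith
    calc ‖f z‖ ≤ B * 2 ^ (n * k) * ‖1 + z‖ ^ (n * k) * Q ^ (a - (a - δ) / w * z.re) := h2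
      _ ≤ B * 2 ^ (n * k) * 2 ^ (n * k) * Q ^ (a - (a - δ) / w * z.re) := by gcongr
      _ = _ := by rw [e4]; ring
  have h1A : 1 ≤ A * 2 ^ n := one_le_mul_of_one_le_of_one_le hA (one_le_pow₀ (by norm_num))
  rcases le_or_gt 0 z.re with h | h
  · rw [abs_of_nonneg h]
    have h1 := right z hz h
    have e1 : Q ^ (a - (a - δ) / w * z.re) * Q ^ (1 / 2 * z.re) =
        Q ^ (a + (1 / 2 - (a - δ) / w) * z.re) := by
      rw [← Real.rpow_add hQ0]; congr 1; ring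
    calc ‖f z‖ * Q ^ (1 / 2 * z.re)
        ≤ (4 ^ (n * k) * B * Q ^ (a - (a - δ) / w * z.re)) * Q ^ (1 / 2 * z.re) := by
          gcongr
      _ = 1 * (4 ^ (n * k) * B) * Q ^ (a + (1 / 2 - (a - δ) / w) * z.re) := by rw [← e1]; ring
      _ ≤ _ := by gcongr
  · set x := -z.re with hx
    have hx0 : 0 < x := by linarith
    have hxabs : |z.re| = x := abs_of_neg h
    have hx4 : x ≤ 1 / 4 := by rw [← hxabs]; exact hre
    have hz' : z = ((-x : ℝ) : ℂ) + z.im * I := by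
      rw [hx, neg_neg]; exact (re_add_im z).symm
    have h1 := hrefl x z.im hx0 hx4
    rw [← hz'] at h1
    have hnorm : ‖(x : ℂ) + z.im * I‖ = ‖z‖ := by
      rw [Complex.norm_eq_sqrt_sq_add_sq, Complex.norm_eq_sqrt_sq_add_sq]
      congr 1
      simp [hx]
    have h2 := right (x + z.im * I) (by rw [hnorm]; exact hz) (by simp; exact hx0.le)
    have h3 : ((x : ℂ) + z.im * I).re = x := by simp
    rw [h3] at h2
    have h4 : (Q * (1 + |z.im|) ^ n) ^ x ≤ 2 ^ n * Q ^ x := by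
      calc (Q * (1 + |z.im|) ^ n) ^ x ≤ (Q * 2 ^ n) ^ x := by
            apply Real.rpow_le_rpow (by positivity) _ hx0.le
            gcongr
            linarith
        _ = Q ^ x * (2 ^ n) ^ x := Real.mul_rpow hQ0.le (by positivity)
        _ ≤ Q ^ x * (2 ^ n) ^ (1:ℝ) := by
            have h2n : (1:ℝ) ≤ 2 ^ n := one_le_pow₀ (by norm_num)
            have := Real.rpow_le_rpow_of_exponent_le h2n (by linarith : x ≤ 1)
            gcongr
        _ = _ := by rw [Real.rpow_one]; ring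
    rw [hxabs]
    have e5 : 1 / 2 * z.re = -(1 / 2 * x) := by rw [hx]; ring
    rw [e5]
    have e1 : Q ^ x * Q ^ (a - (a - δ) / w * x) * Q ^ (-(1 / 2 * x)) =
        Q ^ (a + (1 / 2 - (a - δ) / w) * x) := by
      rw [← Real.rpow_add hQ0, ← Real.rpow_add hQ0]; congr 1; ring
    calc ‖f z‖ * Q ^ (-(1 / 2 * x)) ≤ (A * (Q * (1 + |z.im|) ^ n) ^ x * ‖f (x + z.im * I)‖) *
          Q ^ (-(1 / 2 * x)) := by gcongr
      _ ≤ (A * (2 ^ n * Q ^ x) * (4 ^ (n * k) * B * Q ^ (a - (a - δ) / w * x))) *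
          Q ^ (-(1 / 2 * x)) := by gcongr
      _ = A * 2 ^ n * (4 ^ (n * k) * B) *
          (Q ^ x * Q ^ (a - (a - δ) / w * x) * Q ^ (-(1 / 2 * x))) := by ring
      _ = _ := by rw [e1]

end Pool.Agent.H31.GL
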