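import Pool.Agent.H31.GL.Gauss
import Pool.Agent.H23.GLM.Sample

/-! Sample points near a point of the critical line at which the function is as large as possible. -/

set_option autoImplicit false

open Complex MeasureTheory Set Filter Topology Metric

namespace Pool.Agent.H31.GL

open Pool.Agent.H23.GLH Pool.Agent.H23.GLM

variable {F : ℂ → ℂ} {c A B δ Q σ M a' : ℝ} {n : ℕ}

/-- The estimate at a record point. -/
theorem record_point (hF : DifferentiableOn ℂ F {s | 0 < s.re}) (hA : 1 ≤ A) (hc0 : 1 ≤ c)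
    (hgrow : ∀ s : ℂ, 1 / 4 ≤ s.re → ‖F s‖ ≤ A * (c * (1 + |s.im|) ^ n))
    (hrefl : ∀ x t : ℝ, 0 < x → x ≤ 1 / 4 → ‖F (1 / 2 - x + t * I)‖ ≤
      A * (c * (1 + |t|) ^ n) ^ x * ‖F (1 / 2 + x + t * I)‖)
    (hB : 1 ≤ B) (hδ : 0 < δ) (hδ1 : δ ≤ 1 / 2) (hedge : ∀ s : ℂ, s.re = 1 + δ → ‖F s‖ ≤ B * c ^ δ)
    (t₀ : ℝ) (hQ1 : 1 < Q) (hQ : A * Real.exp n ≤ Q) (hcQ : c ≤ Q)
    (hcomp : ∀ v : ℝ, c * (1 + |t₀ + v|) ^ n ≤ Q * (1 + |v|) ^ n)
    (hσ : 0 < σ) (hσ1 : σ ≤ 1) (hM : 1 ≤ M)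
    (hrec : ∀ v : ℝ, |v| ≤ 2 / σ →
      ‖F (1 / 2 + ((t₀ + v : ℝ) : ℂ) * I)‖ ≤ M * Q ^ (σ * |v|))
    (ha : a' = Real.log M / Real.log Q + σ / 4) (ha3 : a' ≤ 3)
    {R γ E C₀ M₀ : ℝ} (hR : 0 < R) (hR4 : R ≤ 1 / 4) (hγ : 0 < γ)
    (Z : Finset ℝ) (hcard : 2 ≤ Z.card)
    (hZ : ∀ v ∈ Z, |v| ≤ R ∧ ‖F (1 / 2 + ((t₀ + v : ℝ) : ℂ) * I)‖ ≤ M₀)
    (hgap : ∀ u ∈ Z, ∀ v ∈ Z, u ≠ v → γ ≤ |u - v|)
    (hC₀ : 0 ≤ C₀)
    (hP : Z.card * (M₀ *
      ((R + R) / (γ * ((Z.card - 1 : ℕ) : ℝ) / (2 * Real.exp 1))) ^ (Z.card - 1)) ≤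
      C₀ * Q ^ E)
    (hE : 0 ≤ E)
    (hEa : E + |1 / 2 - (a' - (δ + σ * (1 / 2 + δ) ^ 2)) / (1 / 2 + δ)| * R ≤ a') :
    ‖F (1 / 2 + t₀ * I)‖ ≤ (A * 2 ^ n * (4 ^ (n * 3) * B) + C₀) *
        Q ^ (a' + (1 / 2 - (a' - (δ + σ * (1 / 2 + δ) ^ 2)) / (1 / 2 + δ)) * (2 * R / Real.pi)) *
      Real.exp (-∑ v ∈ Z, Real.log (R / |v|)) + C₀ * Q ^ E := by
  classical
  have hQ0 : 0 < Q := by linarith
  have hA' : 0 ≤ A := by linarith
  set w := 1 / 2 + δ with hw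
  set f : ℂ → ℂ := fun z => F (1 / 2 + t₀ * I + z) with hf
  have hU : IsOpen {s : ℂ | 0 < s.re} := isOpen_lt continuous_const Complex.continuous_re
  have hf_diff : ∀ z : ℂ, -(1 / 2) < z.re → DifferentiableAt ℂ f z := by
    intro z hz
    have h1 : 0 < (1 / 2 + t₀ * I + z : ℂ).re := by simp; linarith
    have h2 : DifferentiableAt ℂ F (1 / 2 + t₀ * I + z) :=
      (hF _ h1).differentiableAt (hU.mem_nhds h1)
    exact h2.comp z ((differentiableAt_const _).add differentiableAt_id)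
  have hfgrow : ∀ z : ℂ, -(1 / 4) ≤ z.re → ‖f z‖ ≤ A * (Q * (1 + |z.im|) ^ n) := by
    intro z hz
    have h1 := hgrow (1 / 2 + t₀ * I + z) (by simp; linarith)
    have h2 : (1 / 2 + t₀ * I + z : ℂ).im = t₀ + z.im := by simp
    rw [h2] at h1
    refine h1.trans ?_
    have := hcomp z.im
    gcongr
  have hfv : ∀ v : ℝ, f (v * I) = F (1 / 2 + ((t₀ + v : ℝ) : ℂ) * I) := by
    intro v
    simp only [hf]
    congr 1
    push_cast
    ring
  have hfedge : ∀ z : ℂ, z.re = w → ‖f z‖ ≤ B * Q ^ δ := by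
    intro z hz
    refine (hedge _ (by simp [hz, hw]; ring)).trans ?_
    gcongr
  have hfrefl : ∀ x y : ℝ, 0 < x → x ≤ 1 / 4 → ‖f (((-x : ℝ) : ℂ) + y * I)‖ ≤
      A * (Q * (1 + |y|) ^ n) ^ x * ‖f (x + y * I)‖ := by
    intro x y hx hx4
    have h3 := hrefl x (t₀ + y) hx hx4
    have e3 : (1 / 2 - x + ((t₀ + y : ℝ) : ℂ) * I : ℂ) =
        1 / 2 + t₀ * I + (((-x : ℝ) : ℂ) + y * I) := by push_cast; ring
    have e4 : (1 / 2 + x + ((t₀ + y : ℝ) : ℂ) * I : ℂ) =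
        1 / 2 + t₀ * I + ((x : ℂ) + y * I) := by push_cast; ring
    rw [e3, e4] at h3
    refine h3.trans ?_
    have h5 := hcomp y
    have h6 : (c * (1 + |t₀ + y|) ^ n) ^ x ≤ (Q * (1 + |y|) ^ n) ^ x :=
      Real.rpow_le_rpow (by positivity) h5 hx.le
    gcongr
  have hH : (1 : ℝ) ≤ 2 / σ := by
    rw [le_div_iff₀ hσ]
    linarith
  have hβH : 2 ≤ σ * (2 / σ) := by
    rw [mul_div_cancel₀ _ hσ.ne']
  have hβw : σ * w ^ 2 ≤ 2 := by
    have : w ^ 2 ≤ 1 := by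
      have h1 : w ≤ 1 := by rw [hw]; linarith
      have h2 : 0 ≤ w := by rw [hw]; linarith
      nlinarith
    nlinarith [sq_nonneg w]
  have hrec' : ∀ v : ℝ, |v| ≤ 2 / σ → ‖f (v * I)‖ ≤ M * Q ^ ((0:ℝ) + σ * |v|) := by
    intro v hv
    rw [hfv, zero_add]
    exact hrec v hv
  have ha' : a' = Real.log M / Real.log Q + 0 + σ ^ 2 / (4 * σ) := by
    rw [ha, add_zero]
    congr 1
    field_simp
  set s := 1 / 2 - (a' - (δ + σ * w ^ 2)) / w with hs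
  set K₁ := A * 2 ^ n * (4 ^ (n * 3) * B) with hK₁
  have hK₁1 : 1 ≤ K₁ := by
    have h1 : 1 ≤ A * 2 ^ n := one_le_mul_of_one_le_of_one_le hA (one_le_pow₀ (by norm_num))
    have h2 : 1 ≤ 4 ^ (n * 3) * B :=
      one_le_mul_of_one_le_of_one_le (one_le_pow₀ (by norm_num)) hB
    exact one_le_mul_of_one_le_of_one_le h1 h2
  set G : ℂ → ℂ := fun z => f z * gau (σ * Real.log Q) z *
    cexp (((1 / 2 * Real.log Q : ℝ) : ℂ) * z) with hGdef
  have hnG : ∀ z : ℂ, ‖G z‖ = ‖f z * gau (σ * Real.log Q) z‖ * Q ^ (1 / 2 * z.re) := by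
    intro z
    rw [hGdef]
    simp only
    rw [norm_mul, norm_cexp_real_mul hQ0]
  have hGb : ∀ z ∈ closedBall (0:ℂ) R, ‖G z‖ ≤ K₁ * Q ^ (a' + s * |z.re|) := by
    intro z hz
    have hz' : ‖z‖ ≤ 1 / 4 := by
      have : ‖z‖ ≤ R := by simpa using hz
      linarith
    rw [hnG]
    exact gauss_two_sided hf_diff hQ1 hA hQ hfgrow hfrefl hB (by rw [hw]; linarith) hfedge hσ hβw
      hH hβH hM le_rfl hrec' ha' ha3 hz'
  set U : Set ℂ := {z : ℂ | -(1 / 2) < z.re} with hUdef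
  have hUo : IsOpen U := isOpen_lt continuous_const Complex.continuous_re
  have hsub : closedBall (0:ℂ) R ⊆ U := by
    intro z hz
    have h1 : ‖z‖ ≤ R := by simpa using hz
    have h2 := (abs_le.mp ((Complex.abs_re_le_norm z).trans h1)).1
    show -(1 / 2) < z.re
    linarith
  have hGd : DifferentiableOn ℂ G U := by
    intro z hz
    have h2 : DifferentiableAt ℂ
        (fun z : ℂ => cexp (((1 / 2 * Real.log Q : ℝ) : ℂ) * z)) z := by fun_prop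
    exact (((hf_diff z hz).mul (differentiable_gau _ z)).mul h2).differentiableWithinAt
  have hinj : Function.Injective fun v : ℝ => (v : ℂ) * I := by
    intro u v huv
    simpa using huv
  set Z' : Finset ℂ := Z.image fun v : ℝ => (v : ℂ) * I with hZ'
  have hcard' : Z'.card = Z.card := Finset.card_image_of_injective _ hinj
  have hZ'B : ∀ z ∈ Z', z ∈ closedBall (0:ℂ) R := by
    intro z hz
    obtain ⟨v, hv, rfl⟩ := Finset.mem_image.mp hz
    have := (hZ v hv).1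
    simpa using this
  have hM₀ : ∀ z ∈ Z', ‖G z‖ ≤ M₀ := by
    intro z hz
    obtain ⟨v, hv, rfl⟩ := Finset.mem_image.mp hz
    obtain ⟨h1, h2⟩ := hZ v hv
    have hre : ((v : ℂ) * I).re = 0 := by simp
    have him : ((v : ℂ) * I).im = v := by simp
    rw [hnG, hre, mul_zero, Real.rpow_zero, mul_one, norm_mul, norm_gau, hre, him, hfv]
    have h3 : Real.exp (σ * Real.log Q * (0 ^ 2 - v ^ 2)) ≤ 1 := by
      apply Real.exp_le_one_iff.mpr
      have : 0 ≤ σ * Real.log Q * v ^ 2 := by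
        have := Real.log_nonneg hQ1.le
        positivity
      nlinarith
    calc _ ≤ ‖F (1 / 2 + ((t₀ + v : ℝ) : ℂ) * I)‖ * 1 := by gcongr
      _ ≤ M₀ := by rw [mul_one]; exact h2
  set g := γ * ((Z.card - 1 : ℕ) : ℝ) / (2 * Real.exp 1) with hg
  have hcard1 : (0:ℝ) < ((Z.card - 1 : ℕ) : ℝ) := by
    have : 0 < Z.card - 1 := by omega
    exact_mod_cast this
  have hg0 : 0 < g := by rw [hg]; positivity
  have hsep : ∀ j ∈ Z', g ^ (Z'.card - 1) ≤ ∏ i ∈ Z'.erase j, ‖j - i‖ := by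
    intro j hj
    obtain ⟨v, hv, rfl⟩ := Finset.mem_image.mp hj
    have h1 := prod_dist_ge hγ.le Z hgap hv
    rw [hcard']
    refine h1.trans (le_of_eq ?_)
    have h2 : Z'.erase ((v : ℂ) * I) = (Z.erase v).image fun v : ℝ => (v : ℂ) * I := by
      rw [Finset.image_erase hinj]
    rw [h2, Finset.prod_image fun x _ y _ hxy => hinj hxy]
    refine Finset.prod_congr rfl fun u _ => ?_
    rw [← sub_mul, norm_mul, Complex.norm_I, mul_one, ← Complex.ofReal_sub, Complex.norm_real,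
      Real.norm_eq_abs]
  have hP' : Z'.card * (M₀ * ((R + R) / g) ^ (Z'.card - 1)) ≤ C₀ * Q ^ E := by
    rw [hcard']; exact hP
  have hcore := sample_core hQ1.le hR hUo hsub hGd hK₁1 hGb Z' hZ'B hM₀ hg0 hsep hC₀ hP' hE hEa
  have hG0 : ‖G 0‖ = ‖F (1 / 2 + t₀ * I)‖ := by
    rw [hnG, norm_mul, gau_zero]
    simp [hf]
  have hsum : ∑ z ∈ Z', Real.log (R / ‖z‖) = ∑ v ∈ Z, Real.log (R / |v|) := by
    rw [hZ', Finset.sum_image fun x _ y _ hxy => hinj hxy]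
    refine Finset.sum_congr rfl fun v _ => ?_
    rw [norm_mul, Complex.norm_I, mul_one, Complex.norm_real, Real.norm_eq_abs]
  rw [hG0, hsum] at hcore
  exact hcore

/-- The record point near a given point. -/
theorem exists_record (hF : DifferentiableOn ℂ F {s | 0 < s.re})
    {X H σ : ℝ} (hX : 1 ≤ X) (hσ : 0 < σ) (hH : 0 ≤ H) (t : ℝ)
    (hbig : 1 ≤ ‖F (1 / 2 + t * I)‖)
    (hup : ∀ u : ℝ, |u - t| ≤ H → ‖F (1 / 2 + u * I)‖ ≤ X ^ 2) :
    ∃ t₀ : ℝ, σ * |t₀ - t| * Real.log X ≤ 2 * Real.log X ∧ |t₀ - t| ≤ H ∧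
      ‖F (1 / 2 + t * I)‖ ≤ ‖F (1 / 2 + t₀ * I)‖ ∧
      ∀ u : ℝ, |u - t| ≤ H → ‖F (1 / 2 + u * I)‖ ≤ ‖F (1 / 2 + t₀ * I)‖ * X ^ (σ * |u - t₀|) := by
  have hX0 : 0 < X := by linarith
  have hlog : 0 ≤ Real.log X := Real.log_nonneg hX
  set φ : ℝ → ℝ := fun u => ‖F (1 / 2 + u * I)‖ * X ^ (-(σ * |u - t|)) with hφ
  have hU : IsOpen {s : ℂ | 0 < s.re} := isOpen_lt continuous_const Complex.continuous_re
  have hFc : Continuous fun u : ℝ => F (1 / 2 + u * I) := by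
    rw [continuous_iff_continuousAt]
    intro u
    have h1 : 0 < (1 / 2 + (u : ℂ) * I).re := by simp
    have h2 : ContinuousAt F (1 / 2 + (u : ℂ) * I) :=
      ((hF _ h1).differentiableAt (hU.mem_nhds h1)).continuousAt
    exact ContinuousAt.comp (f := fun u : ℝ => 1 / 2 + (u : ℂ) * I) h2 (by fun_prop)
  have hφc : Continuous φ := by
    refine hFc.norm.mul ?_
    exact Continuous.rpow continuous_const (by fun_prop) fun u => Or.inl hX0.ne'
  obtain ⟨t₀, ht₀, hmax⟩ := (isCompact_Icc (a := t - H) (b := t + H)).exists_isMaxOn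
    ⟨t, by constructor <;> linarith⟩ hφc.continuousOn
  have hmem : ∀ u : ℝ, |u - t| ≤ H → u ∈ Icc (t - H) (t + H) := by
    intro u hu
    obtain ⟨h1, h2⟩ := abs_le.mp hu
    constructor <;> linarith
  have hmax' : ∀ u : ℝ, |u - t| ≤ H → φ u ≤ φ t₀ := fun u hu => hmax (hmem u hu)
  have ht₀H : |t₀ - t| ≤ H := abs_le.mpr ⟨by linarith [ht₀.1], by linarith [ht₀.2]⟩
  have hself := hmax' t (by simpa using hH)
  simp only [hφ, sub_self, abs_zero, mul_zero, neg_zero, Real.rpow_zero, mul_one] at hself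
  have hneg : X ^ (-(σ * |t₀ - t|)) ≤ 1 := by
    apply Real.rpow_le_one_of_one_le_of_nonpos hX
    have : 0 ≤ σ * |t₀ - t| := by positivity
    linarith
  have hge : ‖F (1 / 2 + t * I)‖ ≤ ‖F (1 / 2 + t₀ * I)‖ := by
    refine hself.trans ?_
    calc ‖F (1 / 2 + t₀ * I)‖ * X ^ (-(σ * |t₀ - t|)) ≤ ‖F (1 / 2 + t₀ * I)‖ * 1 := by gcongr
      _ = _ := mul_one _
  refine ⟨t₀, ?_, ht₀H, hge, ?_⟩
  · have h1 := hup t₀ ht₀H
    have h2 : 1 ≤ X ^ 2 * X ^ (-(σ * |t₀ - t|)) := by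
      refine hbig.trans (hself.trans ?_)
      gcongr
    have h3 : X ^ 2 * X ^ (-(σ * |t₀ - t|)) = X ^ (2 + -(σ * |t₀ - t|)) := by
      rw [← Real.rpow_two, ← Real.rpow_add hX0]
    rw [h3, Real.rpow_def_of_pos hX0] at h2
    have h4 : 0 ≤ Real.log X * (2 + -(σ * |t₀ - t|)) := by
      by_contra hcon
      push Not at hcon
      have h5 := Real.exp_lt_exp.mpr hcon
      rw [Real.exp_zero] at h5
      linarith
    nlinarith
  · intro u hu
    have h1 := hmax' u hu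
    simp only [hφ] at h1
    have h2 : ‖F (1 / 2 + u * I)‖ = ‖F (1 / 2 + u * I)‖ * X ^ (-(σ * |u - t|)) *
        X ^ (σ * |u - t|) := by
      rw [mul_assoc, ← Real.rpow_add hX0]
      simp
    rw [h2]
    calc _ ≤ ‖F (1 / 2 + t₀ * I)‖ * X ^ (-(σ * |t₀ - t|)) * X ^ (σ * |u - t|) := by gcongr
      _ = ‖F (1 / 2 + t₀ * I)‖ * X ^ (-(σ * |t₀ - t|) + σ * |u - t|) := by
          rw [mul_assoc, ← Real.rpow_add hX0]
      _ ≤ _ := by
          have h3 : |u - t| ≤ |u - t₀| + |t₀ - t| := by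
            have := abs_add_le (u - t₀) (t₀ - t)
            rwa [sub_add_sub_cancel] at this
          have h4 : -(σ * |t₀ - t|) + σ * |u - t| ≤ σ * |u - t₀| := by nlinarith
          have h5 := Real.rpow_le_rpow_of_exponent_le hX h4
          gcongr

end Pool.Agent.H31.GL
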