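import Pool.Agent.H31.GL.Window
import Pool.Agent.H31.GL.Record

/-! Around a point of the critical line at which the function is almost as large as on a segment of
length `2` it is almost as large, outside an exponentially small set. -/

set_option autoImplicit false

open Complex MeasureTheory Set Filter Topology Metric

namespace Pool.Agent.H31.GL

open Pool.Agent.H23.GLH Pool.Agent.H23.GLM

variable {ι : Type*} {F : ι → ℂ → ℂ} {c : ι → ℝ} {n : ℕ} {A : ℝ}

/-- The numbers for flat records. -/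
lemma flat_numbers {η τ L Λ' LQ : ℝ} (hη : 0 < η) (hτ : 0 ≤ τ) (hL : 0 < L)
    (hLQ : 27 * (η * LQ) ≤ 28 * (η * L)) (hsum : Λ' + Real.log 7 ≤ 27 * (η * LQ))
    (hpos : 0 < Λ' + Real.log 7) :
    64 * Real.exp 1 * η * Real.exp (-(τ * L * Real.log 7 / (Λ' + Real.log 7))) ≤
      175 * η * Real.exp (-(τ / (28 * η))) := by
  have h7 := log_seven_gt
  have he : Real.exp 1 < 2.7182818286 := Real.exp_one_lt_d9
  have h1 : τ / (28 * η) ≤ τ * L * Real.log 7 / (Λ' + Real.log 7) := by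
    rw [div_le_div_iff₀ (by positivity) hpos]
    have h2 : Λ' + Real.log 7 ≤ 28 * (η * L) := hsum.trans hLQ
    calc τ * (Λ' + Real.log 7) ≤ τ * (28 * (η * L)) := by gcongr
      _ = τ * L * 1 * (28 * η) := by ring
      _ ≤ τ * L * Real.log 7 * (28 * η) := by gcongr
  have h3 : Real.exp (-(τ * L * Real.log 7 / (Λ' + Real.log 7))) ≤
      Real.exp (-(τ / (28 * η))) := Real.exp_le_exp.mpr (by linarith)
  have h4 : 64 * Real.exp 1 * η ≤ 175 * η := by
    have : 64 * Real.exp 1 ≤ 175 := by linarith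
    gcongr
  calc _ ≤ 64 * Real.exp 1 * η * Real.exp (-(τ / (28 * η))) := by
        have := Real.exp_pos 1
        gcongr
    _ ≤ _ := by gcongr

/-- **Flat records.** -/
theorem flat_record (h : Adm F c n A 1) {η : ℝ} (hη : 0 < η) (hη1 : η ≤ 1 / 64) :
    ∃ K : ℝ, 1 < K ∧ ∀ (i : ι) (t M τ : ℝ), K ≤ c i * (1 + |t|) ^ n → 0 ≤ τ → 1 ≤ M →
      M ≤ 7 * ‖F i (1 / 2 + t * I)‖ →
      (∀ u : ℝ, |u - t| ≤ 1 → ‖F i (1 / 2 + u * I)‖ ≤ M * (c i * (1 + |t|) ^ n) ^ η) →
      volume {u : ℝ | u ∈ Icc (t - η) (t + η) ∧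
        ‖F i (1 / 2 + u * I)‖ ≤
          (c i * (1 + |t|) ^ n) ^ (-τ) * ‖F i (1 / 2 + t * I)‖} ≤
        ENNReal.ofReal (175 * η * Real.exp (-(τ / (28 * η)))) := by
  have hA := h.one_le_A
  obtain ⟨B1, hB1⟩ := h.edge (1 / 4) (by norm_num)
  obtain ⟨B, hB⟩ : ∃ B, B = max B1 1 := ⟨_, rfl⟩
  have hB1' : 1 ≤ B := by rw [hB]; exact le_max_right _ _
  have hB0 : 0 < B := by linarith
  obtain ⟨K₁, hK₁⟩ : ∃ K₁, K₁ = A * 2 ^ n * (4 ^ (n * 3) * B) := ⟨_, rfl⟩
  have hK₁1 : 1 ≤ K₁ := by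
    have h1 : 1 ≤ A * 2 ^ n := one_le_mul_of_one_le_of_one_le hA (one_le_pow₀ (by norm_num))
    have h2 : 1 ≤ 4 ^ (n * 3) * B :=
      one_le_mul_of_one_le_of_one_le (one_le_pow₀ (by norm_num)) hB1'
    rw [hK₁]
    exact one_le_mul_of_one_le_of_one_le h1 h2
  have hA0 : 0 < A := by linarith
  have h2n : (1:ℝ) ≤ 2 ^ n := one_le_pow₀ (by norm_num)
  have hlog2 : 0 < Real.log 2 := Real.log_pos (by norm_num)
  have hAe : 1 ≤ A * Real.exp n :=
    one_le_mul_of_one_le_of_one_le hA (Real.one_le_exp (Nat.cast_nonneg n))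
  have hA2 : 1 ≤ 7 * (A * 2 ^ n) := by nlinarith [one_le_mul_of_one_le_of_one_le hA h2n]
  obtain ⟨L₀, hL₀⟩ : ∃ L₀, L₀ = 1 + Real.log (A * Real.exp n) + Real.log (7 * (A * 2 ^ n)) +
    27 * (n * Real.log 2) + (Real.log (14 * K₁) + Real.log 7) / η := ⟨_, rfl⟩
  have p1 : 0 ≤ Real.log (A * Real.exp n) := Real.log_nonneg hAe
  have p2 : 0 ≤ Real.log (7 * (A * 2 ^ n)) := Real.log_nonneg hA2
  have p3 : 0 ≤ 27 * (n * Real.log 2) := by positivity
  have h7 := log_seven_gt
  have p4' : 0 ≤ Real.log (14 * K₁) := Real.log_nonneg (by linarith)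
  have p4 : 0 ≤ (Real.log (14 * K₁) + Real.log 7) / η := by positivity
  refine ⟨Real.exp L₀, ?_, ?_⟩
  · have : 0 < L₀ := by linarith
    have := Real.exp_lt_exp.mpr this
    rwa [Real.exp_zero] at this
  intro i t M τ hX hτ hM hMF hrec
  obtain ⟨X, hXdef⟩ : ∃ X, X = c i * (1 + |t|) ^ n := ⟨_, rfl⟩
  rw [← hXdef] at hX hrec ⊢
  have hX0 : 0 < X := (Real.exp_pos _).trans_le hX
  obtain ⟨L, hL⟩ : ∃ L, L = Real.log X := ⟨_, rfl⟩
  have hLL : L₀ ≤ L := by
    rw [hL, ← Real.log_exp L₀]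
    exact Real.log_le_log (Real.exp_pos _) hX
  have q1 : Real.log (A * Real.exp n) ≤ L := by linarith
  have q2 : Real.log (7 * (A * 2 ^ n)) ≤ L := by linarith
  have q3 : 27 * (n * Real.log 2) ≤ L := by linarith
  have q4 : (Real.log (14 * K₁) + Real.log 7) / η ≤ L := by linarith
  have hL0 : 0 < L := by linarith
  have hX1 : 1 < X := by rwa [hL, Real.log_pos_iff hX0.le] at hL0
  have hci := h.one_le_c i
  have hXe : A * Real.exp n ≤ X := (Real.log_le_log_iff (by linarith) hX0).mp (by rw [← hL]; exact q1)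
  have hX7 : 7 * (A * 2 ^ n) ≤ X :=
    (Real.log_le_log_iff (by linarith) hX0).mp (by rw [← hL]; exact q2)
  -- the conductor
  obtain ⟨Q, hQ⟩ : ∃ Q, Q = X * 2 ^ n := ⟨_, rfl⟩
  have hXQ : X ≤ Q := by rw [hQ]; exact le_mul_of_one_le_right hX0.le h2n
  have hQ0 : 0 < Q := by linarith
  have hQ1 : 1 < Q := by linarith
  have hlogQ : Real.log Q = L + n * Real.log 2 := by
    rw [hQ, Real.log_mul hX0.ne' (by positivity), Real.log_pow, hL]
  have hlogQ0 : 0 < Real.log Q := Real.log_pos hQ1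
  have hcomp : ∀ v : ℝ, c i * (1 + |t + v|) ^ n ≤ Q * (1 + |v|) ^ n := by
    intro v
    refine (qcomp (by linarith) n t v).trans ?_
    rw [← hXdef]
    gcongr
  have hcQ : c i ≤ Q := by
    have : (1:ℝ) ≤ (1 + |t|) ^ n := one_le_pow₀ (by linarith [abs_nonneg t])
    have h1 : c i ≤ X := by
      rw [hXdef]
      exact le_mul_of_one_le_right (by linarith) this
    linarith
  -- the function
  set f : ℂ → ℂ := fun z => F i (1 / 2 + t * I + z) with hf
  have hUo : IsOpen {s : ℂ | 0 < s.re} := isOpen_lt continuous_const Complex.continuous_re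
  have hf_diff : ∀ z : ℂ, -(1 / 2) < z.re → DifferentiableAt ℂ f z := by
    intro z hz
    have h1 : 0 < (1 / 2 + t * I + z : ℂ).re := by simp; linarith
    have h2 : DifferentiableAt ℂ (F i) (1 / 2 + t * I + z) :=
      (h.diff i _ h1).differentiableAt (hUo.mem_nhds h1)
    exact h2.comp z ((differentiableAt_const _).add differentiableAt_id)
  have hfgrow : ∀ z : ℂ, -(1 / 4) ≤ z.re → ‖f z‖ ≤ A * (Q * (1 + |z.im|) ^ n) := by
    intro z hz
    have h1 := h.grow i (1 / 2 + t * I + z) (by simp; linarith)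
    have h2 : (1 / 2 + t * I + z : ℂ).im = t + z.im := by simp
    rw [h2, pow_one] at h1
    refine h1.trans ?_
    have := hcomp z.im
    gcongr
  have hfv : ∀ v : ℝ, f (v * I) = F i (1 / 2 + ((t + v : ℝ) : ℂ) * I) := by
    intro v
    simp only [hf]
    congr 1
    push_cast
    ring
  have hf0 : f 0 = F i (1 / 2 + t * I) := by simp [hf]
  have hfedge : ∀ z : ℂ, z.re = 3 / 4 → ‖f z‖ ≤ B * Q ^ (1 / 4 : ℝ) := by
    intro z hz
    refine (hB1 i _ (by simp [hz]; norm_num)).trans ?_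
    have h1 : B1 ≤ B := by rw [hB]; exact le_max_left _ _
    gcongr
  have hfrefl : ∀ x y : ℝ, 0 < x → x ≤ 1 / 4 → ‖f (((-x : ℝ) : ℂ) + y * I)‖ ≤
      A * (Q * (1 + |y|) ^ n) ^ x * ‖f (x + y * I)‖ := by
    intro x y hx hx4
    have h3 := h.refl i x (t + y) hx hx4
    have e3 : (1 / 2 - x + ((t + y : ℝ) : ℂ) * I : ℂ) =
        1 / 2 + t * I + (((-x : ℝ) : ℂ) + y * I) := by push_cast; ring
    have e4 : (1 / 2 + x + ((t + y : ℝ) : ℂ) * I : ℂ) =
        1 / 2 + t * I + ((x : ℂ) + y * I) := by push_cast; ring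
    rw [e3, e4] at h3
    refine h3.trans ?_
    have h5 := hcomp y
    have h6 : (c i * (1 + |t + y|) ^ n) ^ x ≤ (Q * (1 + |y|) ^ n) ^ x :=
      Real.rpow_le_rpow (by positivity) h5 hx.le
    gcongr
  have hrec' : ∀ v : ℝ, |v| ≤ 1 → ‖f (v * I)‖ ≤ M * Q ^ (η + 0 * |v|) := by
    intro v hv
    rw [hfv, zero_mul, add_zero]
    refine (hrec (t + v) (by simpa using hv)).trans ?_
    have : X ^ η ≤ Q ^ η := Real.rpow_le_rpow hX0.le hXQ hη.le
    gcongr
  have hMX : M ≤ X ^ 2 := by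
    have h1 := h.grow i (1 / 2 + t * I) (by simp; norm_num)
    have him : (1 / 2 + (t : ℂ) * I).im = t := by simp
    rw [him, pow_one, ← hXdef] at h1
    calc M ≤ 7 * (A * X) := by linarith
      _ ≤ (7 * (A * 2 ^ n)) * X := by
          have : A * X ≤ A * 2 ^ n * X := by
            have : A ≤ A * 2 ^ n := le_mul_of_one_le_right hA0.le h2n
            gcongr
          linarith
      _ ≤ X * X := by gcongr
      _ = X ^ 2 := by ring
  obtain ⟨a, ha⟩ : ∃ a, a = Real.log M / Real.log Q + η + (0:ℝ) ^ 2 / (4 * 2) := ⟨_, rfl⟩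
  have ha' : a = Real.log M / Real.log Q + η := by rw [ha]; ring
  have hlogM : Real.log M ≤ 2 * L := by
    calc Real.log M ≤ Real.log (X ^ 2) := Real.log_le_log (by linarith) hMX
      _ = 2 * L := by rw [Real.log_pow, hL]; push_cast; rfl
  have ha3 : a ≤ 3 := by
    have h1 : Real.log M / Real.log Q ≤ 2 := by
      rw [div_le_iff₀ hlogQ0, hlogQ]
      have : 0 ≤ n * Real.log 2 := by positivity
      linarith
    rw [ha']
    linarith
  have ha0 : 0 ≤ a := by
    have h1 : 0 ≤ Real.log M / Real.log Q := div_nonneg (Real.log_nonneg hM) hlogQ0.le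
    rw [ha']
    linarith
  have hQa : Q ^ a = M * Q ^ η := by
    rw [ha', Real.rpow_add hQ0]
    congr 1
    rw [Real.rpow_def_of_pos hQ0, mul_div_cancel₀ _ hlogQ0.ne', Real.exp_log (by linarith)]
  set G : ℂ → ℂ := fun z => f z * gau (2 * Real.log Q) z *
    cexp (((1 / 2 * Real.log Q : ℝ) : ℂ) * z) with hGdef
  have hnG : ∀ z : ℂ, ‖G z‖ = ‖f z * gau (2 * Real.log Q) z‖ * Q ^ (1 / 2 * z.re) := by
    intro z
    rw [hGdef]
    simp only
    rw [norm_mul, norm_cexp_real_mul hQ0]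
  set U : Set ℂ := {z : ℂ | -(1 / 2) < z.re} with hUdef
  have hU : IsOpen U := isOpen_lt continuous_const Complex.continuous_re
  have hsub : closedBall (0:ℂ) (8 * η) ⊆ U := by
    intro z hz
    have h1 : ‖z‖ ≤ 8 * η := by simpa using hz
    have h2 := (abs_le.mp ((Complex.abs_re_le_norm z).trans h1)).1
    show -(1 / 2) < z.re
    linarith
  have hGd : DifferentiableOn ℂ G U := by
    intro z hz
    have h2 : DifferentiableAt ℂ
        (fun z : ℂ => cexp (((1 / 2 * Real.log Q : ℝ) : ℂ) * z)) z := by fun_prop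
    exact (((hf_diff z hz).mul (differentiable_gau _ z)).mul h2).differentiableWithinAt
  have hG1 : ∀ z ∈ closedBall (0:ℂ) (8 * η), ‖G z‖ ≤ K₁ * (M * Q ^ (25 * η)) := by
    intro z hz
    have hz1 : ‖z‖ ≤ 8 * η := by simpa using hz
    have hre : |z.re| ≤ 8 * η := (Complex.abs_re_le_norm z).trans hz1
    have h1 := gauss_two_sided (w := 3 / 4) (δ := 1 / 4) (β := 2) (σ := 0) (σ₀ := η) (H := 1)
      (M := M) (B := B) hf_diff hQ1 hA (hXe.trans hXQ) hfgrow hfrefl hB1' (by norm_num) hfedge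
      (by norm_num) (by norm_num) le_rfl (by norm_num) hM hη.le hrec' ha ha3 (z := z)
      (by linarith)
    rw [hnG]
    refine h1.trans ?_
    rw [← hK₁]
    have h2 : a + (1 / 2 - (a - (1 / 4 + 2 * (3 / 4) ^ 2)) / (3 / 4)) * |z.re| ≤
        a + 24 * η := by
      have h3 : (1 / 2 - (a - (1 / 4 + 2 * (3 / 4) ^ 2)) / (3 / 4)) ≤ 3 := by
        rw [sub_le_iff_le_add]
        have : -2 ≤ (a - (1 / 4 + 2 * (3 / 4) ^ 2)) / (3 / 4) := by
          rw [le_div_iff₀ (by norm_num)]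
          linarith
        linarith
      have h4 : (1 / 2 - (a - (1 / 4 + 2 * (3 / 4) ^ 2)) / (3 / 4)) * |z.re| ≤ 3 * |z.re| :=
        mul_le_mul_of_nonneg_right h3 (abs_nonneg _)
      linarith
    have h5 := Real.rpow_le_rpow_of_exponent_le hQ1.le h2
    have h6 : Q ^ (a + 24 * η) = M * Q ^ (25 * η) := by
      rw [Real.rpow_add hQ0, hQa, mul_assoc, ← Real.rpow_add hQ0]
      congr 2
      ring
    rw [h6] at h5
    gcongr
  have hG0 : ‖G 0‖ = ‖F i (1 / 2 + t * I)‖ := by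
    rw [hnG, norm_mul, gau_zero, hf0]
    simp
  have hG0pos : 0 < ‖G 0‖ := by rw [hG0]; linarith
  have hG0ne : G 0 ≠ 0 := norm_pos_iff.mp hG0pos
  have hτL : 0 ≤ τ * L := by positivity
  have hp := persist (τ := τ * L) (R := 8 * η) (r := η) hη (by linarith) hU hsub G hGd hG1 hG0ne
    hτL
  have h87 : (8 * η - η) / η = 7 := by field_simp; norm_num
  rw [h87] at hp
  refine le_trans ?_ (hp.trans ?_)
  · refine volume_shift t ?_
    intro u hu hsmall
    refine ⟨⟨by linarith [hu.1], by linarith [hu.2]⟩, ?_⟩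
    have hre : (((u - t : ℝ) : ℂ) * I).re = 0 := by simp
    have him : (((u - t : ℝ) : ℂ) * I).im = u - t := by simp
    rw [hnG, hre, mul_zero, Real.rpow_zero, mul_one, norm_mul, norm_gau, hre, him, hfv, hG0]
    have e1 : t + (u - t) = u := by ring
    rw [e1]
    have h3 : Real.exp (2 * Real.log Q * (0 ^ 2 - (u - t) ^ 2)) ≤ 1 := by
      apply Real.exp_le_one_iff.mpr
      have : 0 ≤ 2 * Real.log Q * (u - t) ^ 2 := by positivity
      linarith
    have e2 : X ^ (-τ) = Real.exp (-(τ * L)) := by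
      rw [Real.rpow_def_of_pos hX0, ← hL]
      congr 1
      ring
    rw [← e2]
    calc _ ≤ ‖F i (1 / 2 + u * I)‖ * 1 := by gcongr
      _ ≤ _ := by rw [mul_one]; exact hsmall
  · apply ENNReal.ofReal_le_ofReal
    have hM1 : ‖G 0‖ ≤ K₁ * (M * Q ^ (25 * η)) := hG1 0 (mem_closedBall_self (by linarith))
    have hpos0 : 0 < K₁ * (M * Q ^ (25 * η)) := hG0pos.trans_le hM1
    have hΛ'0 : 0 < Real.log (2 * (K₁ * (M * Q ^ (25 * η))) / ‖G 0‖) := by
      apply Real.log_pos
      rw [lt_div_iff₀ hG0pos]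
      linarith
    refine flat_numbers (LQ := Real.log Q) hη hτ hL0 ?_ ?_ (by linarith)
    · have h1 : 27 * Real.log Q ≤ 28 * L := by rw [hlogQ]; linarith
      have h2 := mul_le_mul_of_nonneg_left h1 hη.le
      linarith
    · have h1 : Real.log (2 * (K₁ * (M * Q ^ (25 * η))) / ‖G 0‖) ≤
          Real.log (14 * K₁) + 25 * η * Real.log Q := by
        have h2 : 2 * (K₁ * (M * Q ^ (25 * η))) / ‖G 0‖ ≤ 14 * K₁ * Q ^ (25 * η) := by
          rw [div_le_iff₀ hG0pos, hG0]
          have hq : 0 < Q ^ (25 * η) := Real.rpow_pos_of_pos hQ0 _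
          calc 2 * (K₁ * (M * Q ^ (25 * η))) = 2 * K₁ * Q ^ (25 * η) * M := by ring
            _ ≤ 2 * K₁ * Q ^ (25 * η) * (7 * ‖F i (1 / 2 + t * I)‖) := by gcongr
            _ = _ := by ring
        refine (Real.log_le_log (by positivity) h2).trans (le_of_eq ?_)
        rw [Real.log_mul (by positivity) (Real.rpow_pos_of_pos hQ0 _).ne', Real.log_rpow hQ0]
      rw [div_le_iff₀ hη] at q4
      have h2 : L * η ≤ Real.log Q * η := by
        have : L ≤ Real.log Q := by
          rw [hlogQ]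
          have : 0 ≤ n * Real.log 2 := by positivity
          linarith
        gcongr
      have h3 : 0 ≤ η * Real.log Q := by positivity
      linarith

end Pool.Agent.H31.GL
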