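import Pool.Agent.H31.GL.Conv

/-! A function which is bounded on a segment of the critical line: multiplication by a Gaussian. -/

set_option autoImplicit false

open Complex MeasureTheory Set Filter Topology Metric

namespace Pool.Agent.H31.GL

open Pool.Agent.H23.GLH Pool.Agent.H23.GLM

/-- the Gaussian factor -/
noncomputable def gau (q : ℝ) (z : ℂ) : ℂ := cexp ((q : ℂ) * z ^ 2)

lemma norm_gau (q : ℝ) (z : ℂ) : ‖gau q z‖ = Real.exp (q * (z.re ^ 2 - z.im ^ 2)) := by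
  unfold gau
  rw [Complex.norm_exp]
  congr 1
  rw [Complex.re_ofReal_mul, sq, Complex.mul_re]
  ring

lemma gau_zero (q : ℝ) : gau q 0 = 1 := by
  unfold gau
  simp

lemma differentiable_gau (q : ℝ) : Differentiable ℂ (gau q) := by
  unfold gau
  fun_prop

variable {f : ℂ → ℂ} {Q A B a w δ β σ σ₀ H M : ℝ} {n : ℕ}

/-- The bound on the whole critical line. -/
lemma gauss_line (hQ1 : 1 < Q) (hA : 1 ≤ A) (hQ : A * Real.exp n ≤ Q)
    (hgrow : ∀ z : ℂ, -(1 / 4) ≤ z.re → ‖f z‖ ≤ A * (Q * (1 + |z.im|) ^ n))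
    (hβ : 0 < β) (hH : 1 ≤ H) (hβH : 2 ≤ β * H) (hM : 1 ≤ M) (hσ₀ : 0 ≤ σ₀)
    (hrec : ∀ v : ℝ, |v| ≤ H → ‖f (v * I)‖ ≤ M * Q ^ (σ₀ + σ * |v|)) (v : ℝ) :
    ‖f (v * I) * gau (β * Real.log Q) (v * I)‖ ≤
      Q ^ (Real.log M / Real.log Q + σ₀ + σ ^ 2 / (4 * β)) := by
  have hQ0 : 0 < Q := by linarith
  have hlog : 0 < Real.log Q := Real.log_pos hQ1
  have hMQ : Q ^ (Real.log M / Real.log Q) = M := by
    rw [Real.rpow_def_of_pos hQ0]
    rw [mul_div_cancel₀ _ hlog.ne', Real.exp_log (by linarith)]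
  have hng : ‖gau (β * Real.log Q) (v * I)‖ = Q ^ (-(β * v ^ 2)) := by
    rw [norm_gau, Real.rpow_def_of_pos hQ0]
    congr 1
    simp
    ring
  rw [norm_mul, hng]
  have hsq : |v| ^ 2 = v ^ 2 := sq_abs v
  rcases le_or_gt |v| H with hv | hv
  · calc ‖f (v * I)‖ * Q ^ (-(β * v ^ 2)) ≤ M * Q ^ (σ₀ + σ * |v|) * Q ^ (-(β * v ^ 2)) := by
          have := hrec v hv
          gcongr
      _ = M * Q ^ (σ₀ + σ * |v| + -(β * v ^ 2)) := by
          rw [mul_assoc, ← Real.rpow_add hQ0]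
      _ ≤ M * Q ^ (σ₀ + σ ^ 2 / (4 * β)) := by
          have h1 : σ * |v| + -(β * v ^ 2) ≤ σ ^ 2 / (4 * β) := by
            rw [le_div_iff₀ (by positivity), ← hsq]
            nlinarith [sq_nonneg (σ - 2 * β * |v|)]
          have h2 : σ₀ + σ * |v| + -(β * v ^ 2) ≤ σ₀ + σ ^ 2 / (4 * β) := by linarith
          have h3 := Real.rpow_le_rpow_of_exponent_le hQ1.le h2
          exact mul_le_mul_of_nonneg_left h3 (by linarith)
      _ = _ := by
          rw [add_assoc (Real.log M / Real.log Q), Real.rpow_add hQ0 (Real.log M / Real.log Q),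
            hMQ]
  · have hv1 : 1 ≤ |v| := by linarith
    have hg := hgrow (v * I) (by simp)
    have him : ((v : ℂ) * I).im = v := by simp
    rw [him] at hg
    have h1 : (1 + |v|) ^ n ≤ Real.exp n ^ |v| := by
      rw [← Real.exp_mul]
      calc (1 + |v|) ^ n ≤ (Real.exp |v|) ^ n := by
            have := Real.add_one_le_exp |v|
            apply pow_le_pow_left₀ (by positivity)
            linarith
        _ = Real.exp (n * |v|) := by rw [← Real.exp_nat_mul]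
    have h2 : A ≤ A ^ |v| := by
      calc A = A ^ (1:ℝ) := (Real.rpow_one A).symm
        _ ≤ A ^ |v| := Real.rpow_le_rpow_of_exponent_le hA hv1
    have h3 : A * (1 + |v|) ^ n ≤ Q ^ |v| := by
      calc A * (1 + |v|) ^ n ≤ A ^ |v| * Real.exp n ^ |v| := by
            apply mul_le_mul h2 h1 (by positivity)
            positivity
        _ = (A * Real.exp n) ^ |v| := by
            rw [Real.mul_rpow (by linarith) (Real.exp_pos _).le]
        _ ≤ Q ^ |v| := Real.rpow_le_rpow (by positivity) hQ (abs_nonneg v)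
    have h4 : 2 * |v| ≤ β * v ^ 2 := by
      rw [← hsq]
      have h5 : β * H ≤ β * |v| := by gcongr
      nlinarith
    have h6 : 0 ≤ Real.log M / Real.log Q := div_nonneg (Real.log_nonneg hM) hlog.le
    calc ‖f (v * I)‖ * Q ^ (-(β * v ^ 2)) ≤ A * (Q * (1 + |v|) ^ n) * Q ^ (-(β * v ^ 2)) := by
          gcongr
      _ = (A * (1 + |v|) ^ n) * (Q ^ (1:ℝ) * Q ^ (-(β * v ^ 2))) := by
          rw [Real.rpow_one]; ring
      _ ≤ Q ^ |v| * (Q ^ (1:ℝ) * Q ^ (-(β * v ^ 2))) := by gcongr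
      _ = Q ^ (|v| + (1 + -(β * v ^ 2))) := by
          rw [← Real.rpow_add hQ0, ← Real.rpow_add hQ0]
      _ ≤ _ := by
          apply Real.rpow_le_rpow_of_exponent_le hQ1.le
          have : 0 ≤ σ ^ 2 / (4 * β) := by positivity
          linarith

/-- The two sided bound near a point of the critical line at which the function is almost as large
as on a segment around it. -/
theorem gauss_two_sided (hf : ∀ z : ℂ, -(1 / 2) < z.re → DifferentiableAt ℂ f z)
    (hQ1 : 1 < Q) (hA : 1 ≤ A) (hQ : A * Real.exp n ≤ Q)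
    (hgrow : ∀ z : ℂ, -(1 / 4) ≤ z.re → ‖f z‖ ≤ A * (Q * (1 + |z.im|) ^ n))
    (hrefl : ∀ x y : ℝ, 0 < x → x ≤ 1 / 4 → ‖f (((-x : ℝ) : ℂ) + y * I)‖ ≤
      A * (Q * (1 + |y|) ^ n) ^ x * ‖f (x + y * I)‖)
    (hB : 1 ≤ B) (hw : 1 / 4 ≤ w)
    (hedge : ∀ z : ℂ, z.re = w → ‖f z‖ ≤ B * Q ^ δ)
    (hβ : 0 < β) (hβw : β * w ^ 2 ≤ 2) (hH : 1 ≤ H) (hβH : 2 ≤ β * H) (hM : 1 ≤ M)
    (hσ₀ : 0 ≤ σ₀)
    (hrec : ∀ v : ℝ, |v| ≤ H → ‖f (v * I)‖ ≤ M * Q ^ (σ₀ + σ * |v|))
    (ha : a = Real.log M / Real.log Q + σ₀ + σ ^ 2 / (4 * β)) (ha3 : a ≤ 3)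
    {z : ℂ} (hz : ‖z‖ ≤ 1 / 4) :
    ‖f z * gau (β * Real.log Q) z‖ * Q ^ (1 / 2 * z.re) ≤
      A * 2 ^ n * (4 ^ (n * 3) * B) *
        Q ^ (a + (1 / 2 - (a - (δ + β * w ^ 2)) / w) * |z.re|) := by
  have hQ0 : 0 < Q := by linarith
  have hlog : 0 < Real.log Q := Real.log_pos hQ1
  have hng : ∀ z : ℂ, ‖gau (β * Real.log Q) z‖ = Q ^ (β * (z.re ^ 2 - z.im ^ 2)) := by
    intro z
    rw [norm_gau, Real.rpow_def_of_pos hQ0]
    congr 1
    ring
  have ha0 : 0 ≤ a := by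
    have h1 : 0 ≤ Real.log M / Real.log Q := div_nonneg (Real.log_nonneg hM) hlog.le
    have h2 : 0 ≤ σ ^ 2 / (4 * β) := by positivity
    rw [ha]
    linarith
  refine two_strip (f := fun z => f z * gau (β * Real.log Q) z) (k := 3) (n := n) ?_ hQ1.le hA ?_
    ha0 (by push_cast; linarith) (by linarith) hw ?_ ?_ ?_ hz
  · intro z hz
    exact (hf z hz).mul (differentiable_gau _ z)
  · intro z hz1 hz2
    have hzw : z.re ^ 2 ≤ w ^ 2 := by nlinarith
    have h1 : (1:ℝ) ≤ Q * (1 + |z.im|) ^ n := by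
      have : (1:ℝ) ≤ (1 + |z.im|) ^ n := one_le_pow₀ (by linarith [abs_nonneg z.im])
      exact one_le_mul_of_one_le_of_one_le hQ1.le this
    have h2 : Q ≤ Q * (1 + |z.im|) ^ n := by
      have : (1:ℝ) ≤ (1 + |z.im|) ^ n := one_le_pow₀ (by linarith [abs_nonneg z.im])
      exact le_mul_of_one_le_right hQ0.le this
    rw [norm_mul, hng]
    calc ‖f z‖ * Q ^ (β * (z.re ^ 2 - z.im ^ 2))
        ≤ A * (Q * (1 + |z.im|) ^ n) * Q ^ (2:ℝ) := by
          have h3 : β * (z.re ^ 2 - z.im ^ 2) ≤ 2 := by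
            have h4 : β * z.re ^ 2 ≤ β * w ^ 2 := by gcongr
            nlinarith [mul_nonneg hβ.le (sq_nonneg z.im)]
          have h5 := Real.rpow_le_rpow_of_exponent_le hQ1.le h3
          have h6 := hgrow z hz1
          gcongr
      _ = A * (Q * (1 + |z.im|) ^ n) * Q ^ 2 := by norm_num
      _ ≤ A * (Q * (1 + |z.im|) ^ n) * (Q * (1 + |z.im|) ^ n) ^ 2 := by gcongr
      _ = _ := by ring
  · intro v
    refine (gauss_line (σ := σ) hQ1 hA hQ hgrow hβ hH hβH hM hσ₀ hrec v).trans ?_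
    rw [← ha]
    have h1 : Q ≤ Q * (1 + |v|) ^ n := by
      have : (1:ℝ) ≤ (1 + |v|) ^ n := one_le_pow₀ (by linarith [abs_nonneg v])
      exact le_mul_of_one_le_right hQ0.le this
    have h2 := Real.rpow_le_rpow hQ0.le h1 ha0
    have h3 : 0 ≤ (Q * (1 + |v|) ^ n) ^ a := by positivity
    nlinarith
  · intro z hz
    rw [norm_mul, hng]
    calc ‖f z‖ * Q ^ (β * (z.re ^ 2 - z.im ^ 2)) ≤ B * Q ^ δ * Q ^ (β * w ^ 2) := by
          have h3 : β * (z.re ^ 2 - z.im ^ 2) ≤ β * w ^ 2 := by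
            rw [hz]
            nlinarith [mul_nonneg hβ.le (sq_nonneg z.im)]
          have h5 := Real.rpow_le_rpow_of_exponent_le hQ1.le h3
          have h6 := hedge z hz
          gcongr
      _ = _ := by rw [mul_assoc, ← Real.rpow_add hQ0]
  · intro x y hx hx4
    have e1 : ‖gau (β * Real.log Q) (((-x : ℝ) : ℂ) + y * I)‖ =
        ‖gau (β * Real.log Q) (x + y * I)‖ := by
      rw [norm_gau, norm_gau]
      congr 2
      simp
    rw [norm_mul, norm_mul, e1]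
    have h1 := hrefl x y hx hx4
    have h2 := norm_nonneg (gau (β * Real.log Q) (x + y * I))
    calc _ ≤ A * (Q * (1 + |y|) ^ n) ^ x * ‖f (x + y * I)‖ *
          ‖gau (β * Real.log Q) (x + y * I)‖ := by gcongr
      _ = _ := by ring

end Pool.Agent.H31.GL
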