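import Pool.Agent.H31.GL.Law

/-! Large values persist: the form without parameters. -/

set_option autoImplicit false

open Complex MeasureTheory Set Filter Topology Metric

namespace Pool.Agent.H31.GL

open Pool.Agent.H23.GLH Pool.Agent.H23.GLM

/-- The local law, uniformly for all `κ ≥ e`. -/
theorem local_law_grid {e ε₁ : ℝ} (he : 0 < e) (hε₁ : 0 < ε₁) (n : ℕ) :
    ∃ ε > 0, ∀ η : ℝ, 0 < η → η ≤ ε → ∃ H : ℝ, ∀ (m : ℕ) (S : Set (LData m)), Molteni S →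
      ∃ X₀ : ℝ, ∀ j : ℕ, 1 ≤ j → j ≤ n → ∀ π ∈ S, ∀ t a : ℝ, 0 ≤ a → X₀ ≤ π.X t →
        ‖π.L (1 / 2 + t * I)‖ ≤
          π.X t ^ (max a ((1 - 2 * Real.pi * (j * e)) / 4) + ε₁) ∨
        ∃ t' : ℝ, |t' - t| ≤ H ∧ ∀ Z : Finset ℝ,
          (∀ u ∈ Z, u ∈ Icc t' (t' + η) ∧ ‖π.L (1 / 2 + u * I)‖ ≤ π.X t ^ a) →
          (∀ u ∈ Z, ∀ v ∈ Z, u ≠ v → Real.exp (-(ε / η)) / Real.log (π.X t) ≤ |u - v|) →
          (Z.card : ℝ) < (j * e) * η * Real.log (π.X t) := by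
  induction n with
  | zero =>
    refine ⟨1, one_pos, fun η _ _ => ⟨0, fun m S _ => ⟨0, fun j hj1 hj2 => ?_⟩⟩⟩
    omega
  | succ n ih =>
    obtain ⟨ε, hε, h1⟩ := ih
    have hκ : 0 < ((n + 1 : ℕ) : ℝ) * e := by positivity
    obtain ⟨ε', hε', h1'⟩ := local_law hκ hε₁
    refine ⟨min ε ε', lt_min hε hε', fun η hη hηε => ?_⟩
    obtain ⟨H, h2⟩ := h1 η hη (hηε.trans (min_le_left _ _))
    obtain ⟨H', h2'⟩ := h1' η hη (hηε.trans (min_le_right _ _))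
    refine ⟨max H H', fun m S hS => ?_⟩
    obtain ⟨X₀, h3⟩ := h2 m S hS
    obtain ⟨X₀', h3'⟩ := h2' m S hS
    refine ⟨max (max X₀ X₀') 1, fun j hj1 hj2 π hπ t a ha hX => ?_⟩
    have hX0 : X₀ ≤ π.X t := ((le_max_left _ _).trans (le_max_left _ _)).trans hX
    have hX0' : X₀' ≤ π.X t := ((le_max_right _ _).trans (le_max_left _ _)).trans hX
    have hX1 : 1 ≤ π.X t := (le_max_right _ _).trans hX
    have hlog : 0 ≤ Real.log (π.X t) := Real.log_nonneg hX1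
    have hgap : ∀ δ : ℝ, min ε ε' ≤ δ → Real.exp (-(δ / η)) / Real.log (π.X t) ≤
        Real.exp (-(min ε ε' / η)) / Real.log (π.X t) := by
      intro δ hδ
      have : Real.exp (-(δ / η)) ≤ Real.exp (-(min ε ε' / η)) := by
        apply Real.exp_le_exp.mpr
        apply neg_le_neg
        gcongr
      gcongr
    rcases Nat.lt_or_ge n j with hj | hj
    · have hjn : j = n + 1 := by omega
      subst hjn
      rcases h3' π hπ t a ha hX0' with h4 | ⟨t', ht', h4⟩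
      · exact Or.inl h4
      · exact Or.inr ⟨t', ht'.trans (le_max_right _ _), fun Z hZ1 hZ2 =>
          h4 Z hZ1 fun u hu v hv huv => (hgap ε' (min_le_right _ _)).trans (hZ2 u hu v hv huv)⟩
    · rcases h3 j hj1 hj π hπ t a ha hX0 with h4 | ⟨t', ht', h4⟩
      · exact Or.inl h4
      · exact Or.inr ⟨t', ht'.trans (le_max_left _ _), fun Z hZ1 hZ2 =>
          h4 Z hZ1 fun u hu v hv huv => (hgap ε (min_le_left _ _)).trans (hZ2 u hu v hv huv)⟩

/-- A set of positive measure contains many spaced points. -/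
lemma few_points_measure {π₁ : Set ℝ} {e κ η r Λ : ℝ} (hc : IsCompact π₁) (hκη : κ * η ≤ 1 / 2)
    (hκ0 : 0 ≤ κ * η) (hΛ : 2 ≤ Λ) (hr : 0 < r) (he : e ≤ r / Λ)
    (h : ∀ Z : Finset ℝ, (∀ u ∈ Z, u ∈ π₁) → (∀ u ∈ Z, ∀ v ∈ Z, u ≠ v → e ≤ |u - v|) →
      (Z.card : ℝ) < κ * η * Λ) : volume π₁ < ENNReal.ofReal r := by
  by_contra hcon
  push Not at hcon
  obtain ⟨N, hN⟩ : ∃ N : ℕ, N = ⌈κ * η * Λ⌉₊ := ⟨_, rfl⟩
  have hN0 : 0 ≤ κ * η * Λ := mul_nonneg hκ0 (by linarith)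
  have hNup : (N : ℝ) < κ * η * Λ + 1 := by
    rw [hN]; exact Nat.ceil_lt_add_one hN0
  have hNlow : κ * η * Λ ≤ N := by rw [hN]; exact Nat.le_ceil _
  have hNΛ : (N : ℝ) ≤ Λ := by
    have : κ * η * Λ ≤ 1 / 2 * Λ := by gcongr
    linarith
  have hvol : (N : ℝ) * (r / Λ) ≤ volume.real π₁ := by
    calc (N : ℝ) * (r / Λ) ≤ Λ * (r / Λ) := by gcongr
      _ = r := by field_simp
      _ ≤ volume.real π₁ := by
          rw [measureReal_def, ← ENNReal.ofReal_le_iff_le_toReal hc.measure_lt_top.ne]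
          exact hcon
  obtain ⟨Z, hZ1, hZ2, hZ3⟩ := exists_points (γ := r / Λ) (by positivity) N π₁ hc hvol
  have h5 := h Z hZ1 (fun u hu v hv huv => he.trans (hZ3 u hu v hv huv))
  rw [hZ2] at h5
  linarith

/-- **Large values persist.** -/
theorem large_values_persist {e : ℝ} (he : 0 < e) (he1 : e ≤ 1 / 4) :
    ∃ ε > 0, ∀ η : ℝ, 0 < η → η ≤ ε → ∃ H : ℝ, ∀ (m : ℕ) (S : Set (LData m)), Molteni S →
      ∃ X₀ : ℝ, ∀ π ∈ S, ∀ t b : ℝ, X₀ ≤ π.X t → e ≤ b → b ≤ 1 / 4 →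
        π.X t ^ b ≤ ‖π.L (1 / 2 + t * I)‖ →
        ∃ t' : ℝ, |t' - t| ≤ H ∧
          (∀ Z : Finset ℝ,
            (∀ u ∈ Z, u ∈ Icc t' (t' + η) ∧ ‖π.L (1 / 2 + u * I)‖ ≤ π.X t ^ (b - e)) →
            (∀ u ∈ Z, ∀ v ∈ Z, u ≠ v → Real.exp (-(ε / η)) / Real.log (π.X t) ≤ |u - v|) →
            (Z.card : ℝ) < ((1 - 4 * b) / (2 * Real.pi) + e) * η * Real.log (π.X t)) ∧
          volume {u : ℝ | u ∈ Icc t' (t' + η) ∧
            ‖π.L (1 / 2 + u * I)‖ ≤ π.X t ^ (b - e)} < ENNReal.ofReal (Real.exp (-(ε / η))) := by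
  have hpi := Real.pi_gt_three
  obtain ⟨n, hn⟩ : ∃ n : ℕ, n = ⌈1 / (e / 2)⌉₊ := ⟨_, rfl⟩
  obtain ⟨ε, hε, h1⟩ := local_law_grid (e := e / 2) (ε₁ := e / 4) (by positivity) (by positivity) n
  refine ⟨min ε 1, lt_min hε one_pos, fun η hη hηε => ?_⟩
  have hη1 : η ≤ 1 := hηε.trans (min_le_right _ _)
  obtain ⟨H, h2⟩ := h1 η hη (hηε.trans (min_le_left _ _))
  refine ⟨H, fun m S hS => ?_⟩
  obtain ⟨X₀, h3⟩ := h2 m S hS
  refine ⟨max X₀ (Real.exp 2), fun π hπ t b hX hb hb4 hbig => ?_⟩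
  have hX1 : X₀ ≤ π.X t := (le_max_left _ _).trans hX
  have hX2 : Real.exp 2 ≤ π.X t := (le_max_right _ _).trans hX
  have hX0 : 0 < π.X t := (Real.exp_pos _).trans_le hX2
  have hX1' : 1 < π.X t := one_lt_of_exp two_pos hX2
  obtain ⟨Λ, hΛ⟩ : ∃ Λ, Λ = Real.log (π.X t) := ⟨_, rfl⟩
  have hΛ2 : 2 ≤ Λ := by
    rw [hΛ, ← Real.log_exp 2]
    exact Real.log_le_log (Real.exp_pos 2) hX2
  -- the grid
  obtain ⟨x, hx⟩ : ∃ x, x = (1 - 4 * b) / (2 * Real.pi) := ⟨_, rfl⟩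
  have hx0 : 0 ≤ x := by
    rw [hx]
    apply div_nonneg (by linarith) (by positivity)
  have hx1 : x ≤ 1 / 6 := by
    rw [hx, div_le_div_iff₀ (by positivity) (by norm_num)]
    nlinarith
  obtain ⟨j, hj⟩ : ∃ j : ℕ, j = ⌈(x + e / 2) / (e / 2)⌉₊ := ⟨_, rfl⟩
  have hjpos : 0 < (x + e / 2) / (e / 2) := by positivity
  have hj1 : 1 ≤ j := by
    rw [hj]
    exact Nat.ceil_pos.mpr hjpos
  have hjn : j ≤ n := by
    rw [hj, hn]
    apply Nat.ceil_mono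
    gcongr
    linarith
  have hjlow : x + e / 2 ≤ j * (e / 2) := by
    have h4 : (x + e / 2) / (e / 2) ≤ j := by rw [hj]; exact Nat.le_ceil _
    rwa [div_le_iff₀ (by positivity)] at h4
  have hjup : j * (e / 2) < x + e := by
    have h4 : (j : ℝ) < (x + e / 2) / (e / 2) + 1 := by
      rw [hj]
      exact Nat.ceil_lt_add_one hjpos.le
    calc (j : ℝ) * (e / 2) < ((x + e / 2) / (e / 2) + 1) * (e / 2) := by gcongr
      _ = x + e := by field_simp; ring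
  rcases h3 j hj1 hjn π hπ t (b - e) (by linarith) hX1 with h4 | ⟨t', ht', h4⟩
  · exfalso
    have h5 : max (b - e) ((1 - 2 * Real.pi * (j * (e / 2))) / 4) + e / 4 < b := by
      have h6 : (1 - 2 * Real.pi * (j * (e / 2))) / 4 ≤ b - 3 / 4 * e := by
        have h7 : 2 * Real.pi * (x + e / 2) ≤ 2 * Real.pi * (j * (e / 2)) := by gcongr
        have h8 : 2 * Real.pi * x = 1 - 4 * b := by rw [hx]; field_simp
        have h9 : 3 * e ≤ Real.pi * e := by gcongr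
        linarith
      have h7 : max (b - e) ((1 - 2 * Real.pi * (j * (e / 2))) / 4) ≤ b - 3 / 4 * e :=
        max_le (by linarith) h6
      linarith
    have h6 := Real.rpow_lt_rpow_of_exponent_lt hX1' h5
    linarith
  · have hcount : ∀ Z : Finset ℝ,
        (∀ u ∈ Z, u ∈ Icc t' (t' + η) ∧ ‖π.L (1 / 2 + u * I)‖ ≤ π.X t ^ (b - e)) →
        (∀ u ∈ Z, ∀ v ∈ Z, u ≠ v → Real.exp (-(min ε 1 / η)) / Real.log (π.X t) ≤ |u - v|) →
        (Z.card : ℝ) < ((1 - 4 * b) / (2 * Real.pi) + e) * η * Real.log (π.X t) := by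
      intro Z hZ1 hZ2
      have h5 := h4 Z hZ1 (fun u hu v hv huv => by
        refine le_trans ?_ (hZ2 u hu v hv huv)
        have h6 : Real.exp (-(ε / η)) ≤ Real.exp (-(min ε 1 / η)) := by
          apply Real.exp_le_exp.mpr
          apply neg_le_neg
          gcongr
          exact min_le_left _ _
        rw [← hΛ]
        gcongr)
      refine h5.trans_le ?_
      rw [← hx, ← hΛ]
      gcongr
    refine ⟨t', ht', hcount, ?_⟩
    rw [← hx, ← hΛ] at hcount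
    refine few_points_measure (κ := x + e) (η := η) (Λ := Λ) ?_ ?_ (by positivity) hΛ2
      (Real.exp_pos _) le_rfl ?_
    · refine isCompact_Icc.of_isClosed_subset ?_ fun u hu => hu.1
      exact isClosed_Icc.inter (isClosed_le (continuous_L_line π).norm continuous_const)
    · have : (x + e) * η ≤ (x + e) * 1 := by gcongr
      linarith
    · intro Z hZ1 hZ2
      exact hcount Z hZ1 hZ2

end Pool.Agent.H31.GL
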