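import Pool.Agent.H31.GL.Local
import Pool.Agent.H31.GL.Flat
import Pool.Agent.H23.GLM.Instance

/-! The laws for the size of single `L`-functions on the critical line. -/

set_option autoImplicit false

open Complex MeasureTheory Set Filter Topology Metric

namespace Pool.Agent.H31.GL

open Pool.Agent.H23.GLH Pool.Agent.H23.GLM

lemma seven_le {ε X : ℝ} (hε : 0 < ε) (hX : Real.exp (2 / ε) ≤ X) : 7 ≤ X ^ ε := by
  have hX0 : 0 < X := (Real.exp_pos _).trans_le hX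
  have h1 : (Real.exp (2 / ε)) ^ ε ≤ X ^ ε := Real.rpow_le_rpow (Real.exp_pos _).le hX hε.le
  rw [← Real.exp_mul, div_mul_cancel₀ _ hε.ne'] at h1
  have h2 : (7:ℝ) ≤ Real.exp 2 := by
    have h3 := log_seven_lt
    rw [Real.log_lt_iff_lt_exp (by norm_num)] at h3
    exact h3.le
  linarith

lemma one_lt_of_exp {x X : ℝ} (hx : 0 < x) (hX : Real.exp x ≤ X) : 1 < X := by
  have := Real.exp_lt_exp.mpr hx
  rw [Real.exp_zero] at this
  linarith

/-- Local sampling for `L`-data. -/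
theorem local_law {κ ε₀ : ℝ} (hκ : 0 < κ) (hε₀ : 0 < ε₀) :
    ∃ ε > 0, ∀ η : ℝ, 0 < η → η ≤ ε → ∃ H : ℝ, ∀ (m : ℕ) (S : Set (LData m)), Molteni S →
      ∃ X₀ : ℝ, ∀ π ∈ S, ∀ t a : ℝ, 0 ≤ a → X₀ ≤ π.X t →
        ‖π.L (1 / 2 + t * I)‖ ≤ π.X t ^ (max a ((1 - 2 * Real.pi * κ) / 4) + ε₀) ∨
        ∃ t' : ℝ, |t' - t| ≤ H ∧ ∀ Z : Finset ℝ,
          (∀ u ∈ Z, u ∈ Icc t' (t' + η) ∧ ‖π.L (1 / 2 + u * I)‖ ≤ π.X t ^ a) →
          (∀ u ∈ Z, ∀ v ∈ Z, u ≠ v → Real.exp (-(ε / η)) / Real.log (π.X t) ≤ |u - v|) →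
          (Z.card : ℝ) < κ * η * Real.log (π.X t) := by
  obtain ⟨κ', hκ'⟩ : ∃ κ', κ' = min κ 1 := ⟨_, rfl⟩
  have hκ'0 : 0 < κ' := by rw [hκ']; exact lt_min hκ one_pos
  have hκ'1 : κ' ≤ 1 := by rw [hκ']; exact min_le_right _ _
  have hκ'κ : κ' ≤ κ := by rw [hκ']; exact min_le_left _ _
  obtain ⟨ε₁, hε₁⟩ : ∃ ε₁, ε₁ = min (ε₀ / 2) 1 := ⟨_, rfl⟩
  have hε₁0 : 0 < ε₁ := by rw [hε₁]; exact lt_min (by positivity) one_pos
  have hε₁1 : ε₁ ≤ 1 := by rw [hε₁]; exact min_le_right _ _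
  have hε₁2 : ε₁ ≤ ε₀ / 2 := by rw [hε₁]; exact min_le_left _ _
  obtain ⟨ε, hε, h1⟩ := local_sampling hκ'0 hκ'1 hε₁0 hε₁1
  refine ⟨ε, hε, fun η hη hηε => ?_⟩
  obtain ⟨H, hH, h2⟩ := h1 η hη hηε
  refine ⟨H, fun m S hS => ?_⟩
  obtain ⟨A, hA⟩ := exists_adm hS
  obtain ⟨X₁, h3⟩ := h2 S _ _ m A hA
  refine ⟨max X₁ (Real.exp (2 / (ε₀ / 2))), fun π hπ t a ha hX => ?_⟩
  have hX1 : X₁ ≤ π.X t := (le_max_left _ _).trans hX
  have hX2 : Real.exp (2 / (ε₀ / 2)) ≤ π.X t := (le_max_right _ _).trans hX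
  have h7 := seven_le (show 0 < ε₀ / 2 by positivity) hX2
  have hX1' : 1 < π.X t := one_lt_of_exp (by positivity) hX2
  have hX0 : 0 < π.X t := by linarith
  have hlog : 0 < Real.log (π.X t) := Real.log_pos hX1'
  by_cases hwin : ∀ t' : ℝ, |t' - t| ≤ H → ∃ Z : Finset ℝ,
      κ' * η * Real.log (π.C * (1 + |t|) ^ m) ≤ Z.card ∧
      (∀ u ∈ Z, u ∈ Icc t' (t' + η) ∧
        ‖π.F (1 / 2 + u * I)‖ ≤ (π.C * (1 + |t|) ^ m) ^ a) ∧
      ∀ u ∈ Z, ∀ v ∈ Z, u ≠ v →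
        Real.exp (-(ε / η)) / Real.log (π.C * (1 + |t|) ^ m) ≤ |u - v|
  · left
    have h4 := h3 ⟨π, hπ⟩ t a ha hX1 hwin
    have h4' : ‖π.F (1 / 2 + t * I)‖ ≤ π.X t ^ (max a ((1 - 2 * Real.pi * κ') / 4) + ε₁) := h4
    have h5 : max a ((1 - 2 * Real.pi * κ') / 4) ≤ max a ((1 - 2 * Real.pi * κ) / 4) := by
      apply max_le (le_max_left _ _)
      rcases le_or_gt κ 1 with h | h
      · rw [hκ', min_eq_left h]
        exact le_max_right _ _
      · rw [hκ', min_eq_right h.le]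
        refine le_trans ?_ (le_max_left _ _)
        have := Real.pi_gt_three
        linarith
    calc ‖π.L (1 / 2 + t * I)‖ ≤ 7 * ‖π.F (1 / 2 + t * I)‖ := (norm_F_le_L π t).2
      _ ≤ π.X t ^ (ε₀ / 2) * π.X t ^ (max a ((1 - 2 * Real.pi * κ) / 4) + ε₀ / 2) := by
          have h6 : π.X t ^ (max a ((1 - 2 * Real.pi * κ') / 4) + ε₁) ≤
              π.X t ^ (max a ((1 - 2 * Real.pi * κ) / 4) + ε₀ / 2) :=
            Real.rpow_le_rpow_of_exponent_le hX1'.le (by linarith)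
          have h8 := h4'.trans h6
          gcongr
      _ = _ := by
          rw [← Real.rpow_add hX0]
          congr 1
          ring
  · right
    push Not at hwin
    obtain ⟨t', ht', h5⟩ := hwin
    refine ⟨t', ht', fun Z hZ1 hZ2 => ?_⟩
    by_contra hcard
    push Not at hcard
    have h6 : κ' * η * Real.log (π.C * (1 + |t|) ^ m) ≤ Z.card := by
      refine le_trans ?_ hcard
      have : κ' * η * Real.log (π.X t) ≤ κ * η * Real.log (π.X t) := by gcongr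
      exact this
    obtain ⟨u, hu, v, hv, huv, h7⟩ := h5 Z h6 (fun u hu =>
      ⟨(hZ1 u hu).1, (norm_F_le_L π u).1.trans (hZ1 u hu).2⟩)
    exact absurd (hZ2 u hu v hv huv) (not_le.mpr h7)

/-- The measure law. -/
theorem measure_law {ε₀ : ℝ} (hε₀ : 0 < ε₀) :
    ∃ ε > 0, ∀ η : ℝ, 0 < η → η ≤ ε → ∃ H : ℝ, ∀ (m : ℕ) (S : Set (LData m)), Molteni S →
      ∃ X₀ : ℝ, ∀ π ∈ S, ∀ t a : ℝ, 0 ≤ a → X₀ ≤ π.X t →
        ‖π.L (1 / 2 + t * I)‖ ≤ π.X t ^ (a + ε₀) ∨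
        ∃ t' : ℝ, |t' - t| ≤ H ∧
          volume {u : ℝ | u ∈ Icc t' (t' + η) ∧ ‖π.L (1 / 2 + u * I)‖ ≤ π.X t ^ a} <
            ENNReal.ofReal (Real.exp (-(ε / η))) := by
  have hpi := Real.pi_gt_three
  obtain ⟨ε, hε, h1⟩ := local_law (κ := 1 / (2 * Real.pi)) (by positivity) hε₀
  refine ⟨min ε 1, lt_min hε one_pos, fun η hη hηε => ?_⟩
  have hη1 : η ≤ 1 := hηε.trans (min_le_right _ _)
  obtain ⟨H, h2⟩ := h1 η hη (hηε.trans (min_le_left _ _))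
  refine ⟨H, fun m S hS => ?_⟩
  obtain ⟨X₁, h3⟩ := h2 m S hS
  refine ⟨max X₁ (Real.exp 2), fun π hπ t a ha hX => ?_⟩
  have hX1 : X₁ ≤ π.X t := (le_max_left _ _).trans hX
  have hX2 : Real.exp 2 ≤ π.X t := (le_max_right _ _).trans hX
  have hX0 : 0 < π.X t := (Real.exp_pos _).trans_le hX2
  obtain ⟨Λ, hΛ⟩ : ∃ Λ, Λ = Real.log (π.X t) := ⟨_, rfl⟩
  have hΛ2 : 2 ≤ Λ := by
    rw [hΛ, ← Real.log_exp 2]
    exact Real.log_le_log (Real.exp_pos 2) hX2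
  rcases h3 π hπ t a ha hX1 with h4 | ⟨t', ht', h4⟩
  · left
    have e1 : max a ((1 - 2 * Real.pi * (1 / (2 * Real.pi))) / 4) = a := by
      apply max_eq_left
      have : 2 * Real.pi * (1 / (2 * Real.pi)) = 1 := by field_simp
      rw [this]
      linarith
    rwa [e1] at h4
  · right
    refine ⟨t', ht', ?_⟩
    by_contra hcon
    push Not at hcon
    obtain ⟨r, hr⟩ : ∃ r, r = Real.exp (-(min ε 1 / η)) := ⟨_, rfl⟩
    rw [← hr] at hcon
    have hr0 : 0 < r := by rw [hr]; exact Real.exp_pos _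
    set S' : Set ℝ := {u : ℝ | u ∈ Icc t' (t' + η) ∧ ‖π.L (1 / 2 + u * I)‖ ≤ π.X t ^ a} with hS'
    have hSc : IsCompact S' := by
      refine isCompact_Icc.of_isClosed_subset ?_ fun u hu => hu.1
      exact isClosed_Icc.inter (isClosed_le (continuous_L_line π).norm continuous_const)
    have hκη : 1 / (2 * Real.pi) * η ≤ 1 / 2 := by
      have : 1 / (2 * Real.pi) ≤ 1 / 2 := by
        apply one_div_le_one_div_of_le (by norm_num)
        linarith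
      nlinarith
    obtain ⟨N, hN⟩ : ∃ N : ℕ, N = ⌈1 / (2 * Real.pi) * η * Λ⌉₊ := ⟨_, rfl⟩
    have hN0 : 0 ≤ 1 / (2 * Real.pi) * η * Λ := by positivity
    have hNup : (N : ℝ) < 1 / (2 * Real.pi) * η * Λ + 1 := by
      rw [hN]; exact Nat.ceil_lt_add_one hN0
    have hNlow : 1 / (2 * Real.pi) * η * Λ ≤ N := by rw [hN]; exact Nat.le_ceil _
    have hNΛ : (N : ℝ) ≤ Λ := by
      have : 1 / (2 * Real.pi) * η * Λ ≤ 1 / 2 * Λ := by gcongr
      linarith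
    have hvol : (N : ℝ) * (r / Λ) ≤ volume.real S' := by
      calc (N : ℝ) * (r / Λ) ≤ Λ * (r / Λ) := by gcongr
        _ = r := by field_simp
        _ ≤ volume.real S' := by
            rw [measureReal_def, ← ENNReal.ofReal_le_iff_le_toReal hSc.measure_lt_top.ne]
            exact hcon
    obtain ⟨Z, hZ1, hZ2, hZ3⟩ := exists_points (γ := r / Λ) (by positivity) N S' hSc hvol
    have h5 := h4 Z (fun u hu => hZ1 u hu) (fun u hu v hv huv => by
      refine le_trans ?_ (hZ3 u hu v hv huv)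
      rw [← hΛ, hr]
      have h6 : Real.exp (-(ε / η)) ≤ Real.exp (-(min ε 1 / η)) := by
        apply Real.exp_le_exp.mpr
        apply neg_le_neg
        gcongr
        exact min_le_left _ _
      gcongr)
    rw [hZ2, ← hΛ] at h5
    linarith

/-- The law for one window, for `L`-data. -/
theorem one_window {A ε η : ℝ} (hA : 0 ≤ A) (hε : 0 < ε) (hε1 : ε ≤ 1)
    (hη : 0 < η) (hη1 : η ≤ Real.exp (-(16 * (1 + A) / ε))) {m : ℕ} {S : Set (LData m)}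
    (hS : Molteni S) :
    ∃ X₀ : ℝ, ∀ π ∈ S, ∀ t a : ℝ, -A ≤ a → X₀ ≤ π.X t →
      (∀ u ∈ Icc t (t + η), ‖π.L (1 / 2 + u * I)‖ ≤ π.X t ^ (a + ε)) ∨
      volume {u : ℝ | u ∈ Icc t (t + η) ∧ ‖π.L (1 / 2 + u * I)‖ ≤ π.X t ^ (a - ε)} ≤
        ENNReal.ofReal (η ^ (1 + ε / (1 + A))) := by
  obtain ⟨A', hA'⟩ := exists_adm hS
  obtain ⟨K, hK⟩ := window_law hA' hA hε hε1 hη hη1
  refine ⟨K, fun π hπ t a ha hX => ?_⟩
  by_cases hall : ∀ u ∈ Icc t (t + η), ‖π.L (1 / 2 + u * I)‖ ≤ π.X t ^ (a + ε)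
  · exact Or.inl hall
  · right
    push Not at hall
    obtain ⟨u₁, hu₁, hbig⟩ := hall
    have h1 := hK ⟨π, hπ⟩ t a ha hX u₁ hu₁ (hbig.trans_le (norm_F_le_L π u₁).2)
    refine le_trans (measure_mono ?_) h1
    intro u hu
    exact ⟨hu.1, (norm_F_le_L π u).1.trans hu.2⟩

/-- Flat records, for `L`-data. -/
theorem flat_law {η : ℝ} (hη : 0 < η) (hη1 : η ≤ 1 / 64) {m : ℕ} {S : Set (LData m)}
    (hS : Molteni S) :
    ∃ X₀ : ℝ, ∀ π ∈ S, ∀ t τ : ℝ, 0 ≤ τ → X₀ ≤ π.X t → 1 ≤ ‖π.L (1 / 2 + t * I)‖ →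
      (∀ u : ℝ, |u - t| ≤ 1 →
        ‖π.L (1 / 2 + u * I)‖ ≤ π.X t ^ η * ‖π.L (1 / 2 + t * I)‖) →
      volume {u : ℝ | u ∈ Icc (t - η) (t + η) ∧
        ‖π.L (1 / 2 + u * I)‖ ≤ π.X t ^ (-τ) * ‖π.L (1 / 2 + t * I)‖} ≤
        ENNReal.ofReal (350 * η * Real.exp (-(τ / (28 * η)))) := by
  obtain ⟨A', hA'⟩ := exists_adm hS
  obtain ⟨K, hK1, hK⟩ := flat_record hA' hη hη1
  have hlog2 := Real.log_two_gt_d9
  obtain ⟨L₀, hL₀⟩ : ∃ L₀, L₀ = 2 / (14 * η) := ⟨_, rfl⟩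
  have hL₀0 : 0 < L₀ := by rw [hL₀]; positivity
  refine ⟨max K (Real.exp L₀), fun π hπ t τ hτ hX hbig hrec => ?_⟩
  have hX1 : K ≤ π.X t := (le_max_left _ _).trans hX
  have hX2 : Real.exp L₀ ≤ π.X t := (le_max_right _ _).trans hX
  have hX0 : 0 < π.X t := (Real.exp_pos _).trans_le hX2
  have hX1' : 1 < π.X t := one_lt_of_exp hL₀0 hX2
  obtain ⟨L, hL⟩ : ∃ L, L = Real.log (π.X t) := ⟨_, rfl⟩
  have hLL : L₀ ≤ L := by
    rw [hL, ← Real.log_exp L₀]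
    exact Real.log_le_log (Real.exp_pos _) hX2
  have hL0 : 0 < L := by linarith
  have h7 := log_seven_lt
  have h7' := log_seven_gt
  have hFL := norm_F_le_L π t
  -- the trivial case of small `τ`
  obtain ⟨τ', hτ'⟩ : ∃ τ', τ' = τ - Real.log 7 / L := ⟨_, rfl⟩
  have hsmall : Real.log 7 / L / (28 * η) ≤ Real.log 2 := by
    rw [div_div, div_le_iff₀ (by positivity)]
    have h1 : 2 ≤ L * (14 * η) := by
      rw [hL₀, div_le_iff₀ (by positivity)] at hLL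
      exact hLL
    have h2 : 1 / 2 * (L * (28 * η)) ≤ Real.log 2 * (L * (28 * η)) := by
      have : (1:ℝ) / 2 ≤ Real.log 2 := by linarith
      gcongr
    linarith
  have hexp2 : ∀ x : ℝ, Real.exp (-((x - Real.log 7 / L) / (28 * η))) ≤
      2 * Real.exp (-(x / (28 * η))) := by
    intro x
    have e1 : -((x - Real.log 7 / L) / (28 * η)) =
        -(x / (28 * η)) + Real.log 7 / L / (28 * η) := by ring
    rw [e1, Real.exp_add, mul_comm]
    have h1 : Real.exp (Real.log 7 / L / (28 * η)) ≤ 2 := by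
      calc Real.exp (Real.log 7 / L / (28 * η)) ≤ Real.exp (Real.log 2) :=
            Real.exp_le_exp.mpr hsmall
        _ = 2 := Real.exp_log (by norm_num)
    gcongr
  rcases le_or_gt 0 τ' with h | h
  · have h1 := hK ⟨π, hπ⟩ t ‖π.L (1 / 2 + t * I)‖ τ' hX1 h hbig hFL.2 (fun u hu => by
      refine (norm_F_le_L π u).1.trans ((hrec u hu).trans (le_of_eq ?_))
      rw [mul_comm]
      rfl)
    refine le_trans (measure_mono ?_) (h1.trans ?_)
    · intro u hu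
      refine ⟨hu.1, (norm_F_le_L π u).1.trans (hu.2.trans ?_)⟩
      have e1 : (π.C * (1 + |t|) ^ m) ^ (-τ') = π.X t ^ (-τ) * 7 := by
        show π.X t ^ (-τ') = _
        rw [hτ']
        have e2 : -(τ - Real.log 7 / L) = -τ + Real.log 7 / L := by ring
        rw [e2, Real.rpow_add hX0]
        congr 1
        rw [Real.rpow_def_of_pos hX0, ← hL, mul_div_cancel₀ _ hL0.ne', Real.exp_log (by norm_num)]
      rw [e1, mul_assoc]
      have h2 : 0 ≤ π.X t ^ (-τ) := (Real.rpow_pos_of_pos hX0 _).le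
      exact mul_le_mul_of_nonneg_left hFL.2 h2
    · apply ENNReal.ofReal_le_ofReal
      have h2 := hexp2 τ
      rw [← hτ'] at h2
      calc 175 * η * Real.exp (-(τ' / (28 * η))) ≤
            175 * η * (2 * Real.exp (-(τ / (28 * η)))) := by gcongr
        _ = _ := by ring
  · have h1 : volume {u : ℝ | u ∈ Icc (t - η) (t + η) ∧
        ‖π.L (1 / 2 + u * I)‖ ≤ π.X t ^ (-τ) * ‖π.L (1 / 2 + t * I)‖} ≤
        ENNReal.ofReal (2 * η) := by
      refine (measure_mono (fun u hu => hu.1)).trans (le_of_eq ?_)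
      rw [Real.volume_Icc]
      congr 1
      ring
    refine h1.trans (ENNReal.ofReal_le_ofReal ?_)
    have h2 := hexp2 τ
    have h3 : 1 ≤ Real.exp (-((τ - Real.log 7 / L) / (28 * η))) := by
      apply Real.one_le_exp
      rw [← hτ', neg_div']
      apply div_nonneg (by linarith) (by positivity)
    have h4 : 1 ≤ 2 * Real.exp (-(τ / (28 * η))) := h3.trans h2
    have h5 : η * 1 ≤ η * (2 * Real.exp (-(τ / (28 * η)))) := by gcongr
    have h6 : 0 ≤ η * Real.exp (-(τ / (28 * η))) := by positivity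
    linarith

end Pool.Agent.H31.GL
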