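import Pool.Agent.H31.GL.Record

/-! Local sampling at the Nyquist rate. -/

set_option autoImplicit false

open Complex MeasureTheory Set Filter Topology Metric

namespace Pool.Agent.H31.GL

open Pool.Agent.H23.GLH Pool.Agent.H23.GLM

/-- The slope condition. -/
lemma slope_le {κ ε₀ δ σ a' b : ℝ} (hκ : 0 < κ) (hε₀ : 0 < ε₀) (hε₀1 : ε₀ ≤ 1)
    (hδ : δ = ε₀ / 64) (hσ : σ ≤ ε₀ / 64) (hσ0 : 0 < σ)
    (hb : (1 - 2 * Real.pi * κ) / 4 ≤ b) (ha : b + 3 / 4 * ε₀ ≤ a') :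
    1 / 2 - (a' - (δ + σ * (1 / 2 + δ) ^ 2)) / (1 / 2 + δ) ≤ Real.pi * κ - ε₀ := by
  have hpi := Real.pi_pos
  have hδ0 : 0 < δ := by rw [hδ]; positivity
  have hw : 0 < 1 / 2 + δ := by linarith
  have h1 : (1 / 2 - Real.pi * κ + ε₀) ≤ (a' - (δ + σ * (1 / 2 + δ) ^ 2)) / (1 / 2 + δ) := by
    rw [le_div_iff₀ hw]
    have h2 : (1 / 2 - Real.pi * κ + ε₀) * δ ≤ 3 / 2 * δ := by
      have : 1 / 2 - Real.pi * κ + ε₀ ≤ 3 / 2 := by
        have : 0 < Real.pi * κ := by positivity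
        linarith
      exact mul_le_mul_of_nonneg_right this hδ0.le
    have h3 : σ * (1 / 2 + δ) ^ 2 ≤ ε₀ / 64 := by
      have h4 : (1 / 2 + δ) ^ 2 ≤ 1 := by nlinarith
      nlinarith [sq_nonneg (1 / 2 + δ)]
    nlinarith
  linarith

lemma abs_slope_le {δ σ a' ε₀ : ℝ} (hε₀ : 0 < ε₀) (hε₀1 : ε₀ ≤ 1)
    (hδ : δ = ε₀ / 64) (hσ : σ ≤ ε₀ / 64) (hσ0 : 0 < σ) (ha0 : 0 ≤ a') (ha3 : a' ≤ 3) :
    |1 / 2 - (a' - (δ + σ * (1 / 2 + δ) ^ 2)) / (1 / 2 + δ)| ≤ 7 := by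
  have hδ0 : 0 < δ := by rw [hδ]; positivity
  have hw : 0 < 1 / 2 + δ := by linarith
  have h3 : σ * (1 / 2 + δ) ^ 2 ≤ ε₀ / 64 := by
    have h4 : (1 / 2 + δ) ^ 2 ≤ 1 := by nlinarith
    nlinarith [sq_nonneg (1 / 2 + δ)]
  have h4 : 0 ≤ σ * (1 / 2 + δ) ^ 2 := by positivity
  have h5 : (a' - (δ + σ * (1 / 2 + δ) ^ 2)) / (1 / 2 + δ) ≤ 6 := by
    rw [div_le_iff₀ hw]
    nlinarith
  have h6 : -6 ≤ (a' - (δ + σ * (1 / 2 + δ) ^ 2)) / (1 / 2 + δ) := by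
    rw [le_div_iff₀ hw]
    nlinarith
  rw [abs_le]
  constructor <;> linarith

/-- The exponent of the interpolation polynomial. -/
lemma Eexp_le {a κ η ε ε₀ : ℝ} {J : ℕ} (hκ : 0 < κ) (hη : 0 < η) (hηε : η ≤ ε)
    (hL0 : 0 ≤ Real.log (32 * Real.exp 1 ^ 2 / κ))
    (hε : 4 * J * κ * (ε * (Real.log (32 * Real.exp 1 ^ 2 / κ) + 1)) ≤ ε₀ / 8) :
    Eexp a κ η (Real.exp (-(ε / η))) J ≤ a + ε₀ / 8 := by
  have hm0 : 0 < Real.exp (-(ε / η)) := Real.exp_pos _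
  set L0 := Real.log (32 * Real.exp 1 ^ 2 / κ) with hL0def
  have hlog : Real.log (32 * Real.exp 1 ^ 2 / (Real.exp (-(ε / η)) * κ)) = L0 + ε / η := by
    rw [hL0def, mul_comm (Real.exp (-(ε / η))) κ, ← div_div,
      Real.log_div (by positivity) hm0.ne', Real.log_exp]
    ring
  unfold Eexp
  rw [hlog]
  have h1 : η * (L0 + ε / η) ≤ ε * (L0 + 1) := by
    have : η * (L0 + ε / η) = η * L0 + ε := by field_simp
    rw [this]
    nlinarith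
  have h2 : 4 * J * κ * η * (L0 + ε / η) ≤ 4 * J * κ * (ε * (L0 + 1)) := by
    calc 4 * J * κ * η * (L0 + ε / η) = 4 * J * κ * (η * (L0 + ε / η)) := by ring
      _ ≤ _ := by gcongr
  linarith

/-- The final numerical contradiction. -/
lemma final_contra {M Q Λ N K₁ σ s R κ η ε₀ E b ell D : ℝ}
    (hQ0 : 0 < Q) (hM : 0 < M) (hMQ : Q ^ (b + 3 / 4 * ε₀) ≤ M)
    (hE : E ≤ b + ε₀ / 8) (hε₀ : 0 < ε₀) (hlogQ : 2 / ε₀ ≤ Real.log Q)
    (hell : 0 ≤ ell) (hκη : 0 ≤ κ * η) (hN : κ * η * Λ ≤ N) (hΛ : Real.log Q - D ≤ Λ)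
    (hK₁ : 0 ≤ K₁) (hη : 0 < η)
    (hθ : σ / 4 + s * (2 * R / Real.pi) - 2 * κ * η * ell ≤ -(η * ε₀ / 8))
    (hbig : Real.log (2 * (K₁ + 1)) + 2 * κ * η * ell * D < η * ε₀ / 8 * Real.log Q)
    (hmain : M ≤ (K₁ + 1) * (M * Q ^ (σ / 4) * Q ^ (s * (2 * R / Real.pi))) *
      Real.exp (-(2 * N * ell)) + Q ^ E) : False := by
  have hQE : Q ^ E ≤ M / 2 := by
    have hlog1 : 1 ≤ Real.log Q * (ε₀ / 2) := by
      rw [div_le_iff₀ hε₀] at hlogQ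
      linarith
    have h2 : (2:ℝ) ≤ Real.exp (Real.log Q * (ε₀ / 2)) := by
      have := Real.add_one_le_exp (Real.log Q * (ε₀ / 2))
      linarith
    have hQ1 : 1 ≤ Q := by
      have : 0 ≤ Real.log Q := le_trans (by positivity) hlogQ
      rwa [Real.log_nonneg_iff hQ0] at this
    calc Q ^ E ≤ Q ^ (b + 3 / 4 * ε₀ - ε₀ / 2) :=
          Real.rpow_le_rpow_of_exponent_le hQ1 (by linarith)
      _ = Q ^ (b + 3 / 4 * ε₀) / Q ^ (ε₀ / 2) := Real.rpow_sub hQ0 _ _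
      _ ≤ M / 2 := by
          rw [← Real.rpow_def_of_pos hQ0] at h2
          gcongr
  have h1 : M / 2 ≤ (K₁ + 1) * (M * Q ^ (σ / 4) * Q ^ (s * (2 * R / Real.pi))) *
      Real.exp (-(2 * N * ell)) := by linarith
  have h2 : Real.exp (-(2 * N * ell)) ≤
      Real.exp (2 * κ * η * ell * D) * Q ^ (-(2 * κ * η * ell)) := by
    rw [Real.rpow_def_of_pos hQ0, ← Real.exp_add]
    apply Real.exp_le_exp.mpr
    have h3 : κ * η * (Real.log Q - D) ≤ N := by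
      refine le_trans ?_ hN
      gcongr
    have h4 : 2 * (κ * η * (Real.log Q - D)) * ell ≤ 2 * N * ell := by gcongr
    linarith
  have h3 : M / 2 ≤ (K₁ + 1) * Real.exp (2 * κ * η * ell * D) * M *
      Q ^ (σ / 4 + s * (2 * R / Real.pi) - 2 * κ * η * ell) := by
    refine h1.trans ?_
    have e1 : Q ^ (σ / 4 + s * (2 * R / Real.pi) - 2 * κ * η * ell) =
        Q ^ (σ / 4) * Q ^ (s * (2 * R / Real.pi)) * Q ^ (-(2 * κ * η * ell)) := by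
      rw [← Real.rpow_add hQ0, ← Real.rpow_add hQ0]
      congr 1
    rw [e1]
    calc _ ≤ (K₁ + 1) * (M * Q ^ (σ / 4) * Q ^ (s * (2 * R / Real.pi))) *
          (Real.exp (2 * κ * η * ell * D) * Q ^ (-(2 * κ * η * ell))) := by gcongr
      _ = _ := by ring
  have hQ1 : 1 ≤ Q := by
    have : 0 ≤ Real.log Q := le_trans (by positivity) hlogQ
    rwa [Real.log_nonneg_iff hQ0] at this
  have h4 : M / 2 ≤ (K₁ + 1) * Real.exp (2 * κ * η * ell * D) * M * Q ^ (-(η * ε₀ / 8)) := by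
    refine h3.trans ?_
    have := Real.rpow_le_rpow_of_exponent_le hQ1 hθ
    gcongr
  have h5 : 1 ≤ 2 * (K₁ + 1) * Real.exp (2 * κ * η * ell * D) * Q ^ (-(η * ε₀ / 8)) := by
    have h6 : M * 1 ≤ M * (2 * (K₁ + 1) * Real.exp (2 * κ * η * ell * D) *
        Q ^ (-(η * ε₀ / 8))) := by linarith
    exact le_of_mul_le_mul_left h6 hM
  have h6 : 2 * (K₁ + 1) * Real.exp (2 * κ * η * ell * D) * Q ^ (-(η * ε₀ / 8)) < 1 := by
    have e1 : 2 * (K₁ + 1) = Real.exp (Real.log (2 * (K₁ + 1))) :=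
      (Real.exp_log (by positivity)).symm
    rw [e1, Real.rpow_def_of_pos hQ0, ← Real.exp_add, ← Real.exp_add]
    have h7 : Real.log (2 * (K₁ + 1)) + 2 * κ * η * ell * D +
        Real.log Q * -(η * ε₀ / 8) < 0 := by linarith
    have h8 := Real.exp_lt_exp.mpr h7
    rwa [Real.exp_zero] at h8
  linarith

/-- The exponent of the final estimate is negative. -/
lemma theta_le {κ η ε₀ τ σ s el R : ℝ} {J : ℕ} (hJ : 0 < J) (hκ : 0 < κ) (hη : 0 < η)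
    (hε₀ : 0 < ε₀) (hτ : τ = ε₀ / (8 * κ)) (hJr : 1 - τ ≤ el / (J + 1))
    (hσ : σ = η * ε₀ / 64) (hs : s ≤ Real.pi * κ - ε₀) (hR : R = (J + 1) * η) :
    σ / 4 + s * (2 * R / Real.pi) - 2 * κ * η * el ≤ -(η * ε₀ / 8) := by
  have hpi := Real.pi_pos
  have hpi4 := Real.pi_le_four
  have hJ0 : (0:ℝ) < J := by exact_mod_cast hJ
  have hJ1 : (1:ℝ) ≤ J := by exact_mod_cast hJ
  have h1 : s * (2 * R / Real.pi) ≤ (Real.pi * κ - ε₀) * (2 * R / Real.pi) := by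
    have : 0 ≤ 2 * R / Real.pi := by rw [hR]; positivity
    gcongr
  have h2 : (Real.pi * κ - ε₀) * (2 * R / Real.pi) =
      2 * κ * ((J + 1) * η) - ε₀ * ((J + 1) * η) * (2 / Real.pi) := by
    rw [hR]
    field_simp
  have h3 : 1 / 2 ≤ 2 / Real.pi := by
    rw [div_le_div_iff₀ (by norm_num) hpi]
    linarith
  have h4 : ε₀ * ((J + 1) * η) * (1 / 2) ≤ ε₀ * ((J + 1) * η) * (2 / Real.pi) := by
    gcongr
  have h5 : (1 - τ) * (J + 1) ≤ el := by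
    rw [le_div_iff₀ (by positivity)] at hJr
    exact hJr
  have h6 : 2 * κ * η * ((1 - τ) * (J + 1)) ≤ 2 * κ * η * el := by gcongr
  have h7 : 2 * κ * η * ((1 - τ) * (J + 1)) =
      2 * κ * ((J + 1) * η) - ε₀ * ((J + 1) * η) * (1 / 4) := by
    rw [hτ]
    field_simp
    ring
  have h8 : ε₀ * (2 * η) ≤ ε₀ * ((J + 1) * η) := by
    gcongr
    linarith
  have h9 : σ / 4 ≤ η * ε₀ / 8 := by
    rw [hσ]
    have : 0 ≤ η * ε₀ := by positivity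
    linarith
  linarith

/-- The interpolation polynomial is small. -/
lemma interp_le {X Q a κ η η' m₁ Λ : ℝ} {J N k : ℕ} (hJ : 0 < J) (hη : 0 < η) (hη'0 : 0 < η')
    (hη'2 : η' ≤ 2 * η) (hκ : 0 < κ) (hκ1 : κ ≤ 1) (hm0 : 0 < m₁) (hm1 : m₁ ≤ 1)
    (hX0 : 0 < X) (hXQ : X ≤ Q) (ha : 0 ≤ a) (hΛ : Λ = Real.log X) (hΛ0 : 0 < Λ)
    (hκηΛ : 1 ≤ κ * η * Λ) (hN : N = ⌈κ * η * Λ⌉₊) (hN1 : 1 ≤ N) (hk : k = 2 * J * N) :
    k * (X ^ a *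
      ((J * η' + J * η') / (m₁ / (2 * Λ) * ((k - 1 : ℕ) : ℝ) / (2 * Real.exp 1))) ^
        (k - 1)) ≤ 1 * Q ^ Eexp a κ η m₁ J := by
  have hQ0 : 0 < Q := by linarith
  have he1 : 1 ≤ Real.exp 1 := Real.one_le_exp (by norm_num)
  have hNlow : κ * η * Λ ≤ N := by rw [hN]; exact Nat.le_ceil _
  have hNup : (N : ℝ) < κ * η * Λ + 1 := by
    rw [hN]
    exact Nat.ceil_lt_add_one (by positivity)
  have hinterp := interp_bound (M := X ^ a) (n := k) (Λ := Λ) hJ hη hη'0 hη'2 hκ hκ1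
    hm0 hm1 (by positivity) hκηΛ (by linarith) (by linarith) hN1 hk hΛ0
  have hLm : 0 ≤ Real.log (32 * Real.exp 1 ^ 2 / (m₁ * κ)) := by
    apply Real.log_nonneg
    rw [one_le_div (by positivity)]
    have h1 : m₁ * κ ≤ 1 := by nlinarith
    nlinarith
  refine hinterp.trans ?_
  rw [one_mul, Eexp, Real.rpow_add hQ0]
  have h1 : X ^ a ≤ Q ^ a := Real.rpow_le_rpow hX0.le hXQ ha
  have h2 : Real.exp (4 * J * κ * η * Real.log (32 * Real.exp 1 ^ 2 / (m₁ * κ)) * Λ) ≤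
      Q ^ (4 * J * κ * η * Real.log (32 * Real.exp 1 ^ 2 / (m₁ * κ))) := by
    rw [Real.rpow_def_of_pos hQ0]
    apply Real.exp_le_exp.mpr
    rw [mul_comm (Real.log Q)]
    have h3 : Λ ≤ Real.log Q := by
      rw [hΛ]
      exact Real.log_le_log hX0 hXQ
    gcongr
  gcongr

/-- Sample points in the windows around `t₀`. -/
lemma windows_points {P : ℝ → Prop} {t t₀ H κ η η' Λ m₁ : ℝ} {J N : ℕ} (hJ : 0 < J) (hη : 0 < η)
    (hηη' : η < η') (hR4 : J * η' ≤ 1 / 4) (hgap : m₁ / Λ ≤ η' - η) (hN : N = ⌈κ * η * Λ⌉₊)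
    (ht₀ : |t₀ - t| + 1 / 4 ≤ H)
    (hwin : ∀ t' : ℝ, |t' - t| ≤ H → ∃ Z : Finset ℝ, κ * η * Λ ≤ Z.card ∧
      (∀ u ∈ Z, u ∈ Icc t' (t' + η) ∧ P u) ∧ ∀ u ∈ Z, ∀ v ∈ Z, u ≠ v → m₁ / Λ ≤ |u - v|) :
    ∃ Z : Finset ℝ, Z.card = 2 * J * N ∧ (∀ v ∈ Z, |v| ≤ J * η' ∧ 0 < |v| ∧ P (t₀ + v)) ∧
      (∀ u ∈ Z, ∀ v ∈ Z, u ≠ v → m₁ / Λ ≤ |u - v|) ∧
      2 * N * ell J ≤ ∑ v ∈ Z, Real.log (J * η' / |v|) := by
  classical
  have hη'0 : 0 < η' := by linarith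
  refine union_windows (J := J) (N := N) hJ hη hηη' hgap (fun v => P (t₀ + v)) ?_
  intro p hp
  set x := wstart η η' p with hx
  have hxabs : |x| ≤ 1 / 4 := by
    have h1 := (abs_window hη hηη' (p := p) (v := x) ⟨le_rfl, by linarith⟩).1
    have h2 : (p.1 : ℝ) + 1 ≤ J := by exact_mod_cast hp
    calc |x| ≤ (p.1 + 1) * η' := h1
      _ ≤ J * η' := by gcongr
      _ ≤ 1 / 4 := hR4
  obtain ⟨W', hW1, hW2, hW3⟩ := hwin (t₀ + x) (by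
    have e1 : t₀ + x - t = (t₀ - t) + x := by ring
    rw [e1]
    refine (abs_add_le _ _).trans ?_
    linarith)
  have hNW : N ≤ W'.card := by
    rw [hN]
    exact Nat.ceil_le.mpr hW1
  obtain ⟨W'', hW's, hW'c⟩ := Finset.exists_subset_card_eq hNW
  have hinj : Function.Injective fun u : ℝ => u - t₀ := sub_left_injective
  refine ⟨W''.image fun u : ℝ => u - t₀, ?_, ?_, ?_⟩
  · rw [Finset.card_image_of_injective _ hinj, hW'c]
  · intro v hv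
    obtain ⟨u, hu, rfl⟩ := Finset.mem_image.mp hv
    obtain ⟨⟨h1, h2⟩, h3⟩ := hW2 u (hW's hu)
    refine ⟨⟨by linarith, by linarith⟩, ?_⟩
    have e1 : t₀ + (u - t₀) = u := by ring
    rw [e1]
    exact h3
  · intro v hv v' hv' hne
    obtain ⟨u, hu, rfl⟩ := Finset.mem_image.mp hv
    obtain ⟨u', hu', rfl⟩ := Finset.mem_image.mp hv'
    have h1 := hW3 u (hW's hu) u' (hW's hu') (fun h => hne (by rw [h]))
    have e1 : u - t₀ - (u' - t₀) = u - u' := by ring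
    rw [e1]
    exact h1

/-- The exponent at the record point. -/
lemma record_exponent {X Q M Λ D b ε₀ σ : ℝ} (hX0 : 0 < X) (hQ1 : 1 < Q) (hΛ : Λ = Real.log X)
    (hlogQ : Real.log Q = Λ + D) (hD0 : 0 ≤ D) (hε₀ : 0 < ε₀) (hb0 : 0 ≤ b) (hb2 : b + ε₀ < 2)
    (hσ0 : 0 < σ) (hσ1 : σ ≤ 1) (hD8 : 8 * D ≤ ε₀ * Λ)
    (hM : 0 < M) (hMb : X ^ (b + ε₀) ≤ M) (hMX : M ≤ X ^ 2) :
    Q ^ (b + 3 / 4 * ε₀) ≤ M ∧ b + 3 / 4 * ε₀ ≤ Real.log M / Real.log Q + σ / 4 ∧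
      Real.log M / Real.log Q + σ / 4 ≤ 3 ∧
      Q ^ (Real.log M / Real.log Q + σ / 4) = M * Q ^ (σ / 4) := by
  have hQ0 : 0 < Q := by linarith
  have hlogQ0 : 0 < Real.log Q := Real.log_pos hQ1
  have hlogM : Real.log M ≤ 2 * Λ := by
    calc Real.log M ≤ Real.log (X ^ 2) := Real.log_le_log hM hMX
      _ = 2 * Λ := by rw [Real.log_pow, hΛ]; push_cast; rfl
  have hlogM2 : (b + ε₀) * Λ ≤ Real.log M := by
    have h1 := Real.log_le_log (Real.rpow_pos_of_pos hX0 _) hMb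
    rwa [Real.log_rpow hX0, ← hΛ] at h1
  have hlogM3 : (b + 3 / 4 * ε₀) * Real.log Q ≤ Real.log M := by
    refine le_trans ?_ hlogM2
    rw [hlogQ]
    have h1 : (b + 3 / 4 * ε₀) * D ≤ 2 * D := by
      have : b + 3 / 4 * ε₀ ≤ 2 := by linarith
      gcongr
    linarith
  refine ⟨?_, ?_, ?_, ?_⟩
  · rw [Real.rpow_def_of_pos hQ0, ← Real.exp_log hM]
    apply Real.exp_le_exp.mpr
    linarith
  · have h1 : b + 3 / 4 * ε₀ ≤ Real.log M / Real.log Q := by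
      rw [le_div_iff₀ hlogQ0]
      exact hlogM3
    linarith
  · have h1 : Real.log M / Real.log Q ≤ 2 := by
      rw [div_le_iff₀ hlogQ0, hlogQ]
      linarith
    linarith
  · rw [Real.rpow_add hQ0]
    congr 1
    rw [Real.rpow_def_of_pos hQ0, mul_div_cancel₀ _ hlogQ0.ne', Real.exp_log hM]

/-- The conductor around the record point. -/
lemma conductor_comp {c t t₀ H₀ X Q : ℝ} {n : ℕ} (hc : 0 ≤ c) (hX : X = c * (1 + |t|) ^ n)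
    (hQ : Q = X * (1 + H₀) ^ n) (ht₀ : |t₀ - t| ≤ H₀) (v : ℝ) :
    c * (1 + |t₀ + v|) ^ n ≤ Q * (1 + |v|) ^ n := by
  have h1 := qcomp hc n t ((t₀ - t) + v)
  have e1 : t + ((t₀ - t) + v) = t₀ + v := by ring
  rw [e1] at h1
  refine h1.trans ?_
  have h2 : 1 + |(t₀ - t) + v| ≤ (1 + H₀) * (1 + |v|) := by
    refine (one_add_abs_add_le (t₀ - t) v).trans ?_
    gcongr
  calc c * (1 + |t|) ^ n * (1 + |(t₀ - t) + v|) ^ n
      ≤ X * ((1 + H₀) * (1 + |v|)) ^ n := by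
        rw [← hX]
        have hX0 : 0 ≤ X := by rw [hX]; positivity
        gcongr
    _ = Q * (1 + |v|) ^ n := by rw [hQ, mul_pow]; ring

/-- Growth near `t`. -/
lemma growth_near {F : ℂ → ℂ} {c t H₀ X A : ℝ} {n : ℕ} (hc : 0 ≤ c) (hA : 0 ≤ A)
    (hX : X = c * (1 + |t|) ^ n)
    (hgrow : ∀ s : ℂ, 1 / 4 ≤ s.re → ‖F s‖ ≤ A * (c * (1 + |s.im|) ^ n))
    (hXA : A * (1 + H₀) ^ n ≤ X) {u : ℝ} (hu : |u - t| ≤ H₀) :
    ‖F (1 / 2 + u * I)‖ ≤ X ^ 2 := by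
  have hX0 : 0 ≤ X := by rw [hX]; positivity
  have h1 := hgrow (1 / 2 + u * I) (by simp; norm_num)
  have him : (1 / 2 + (u : ℂ) * I).im = u := by simp
  rw [him] at h1
  have h2 := qcomp hc n t (u - t)
  rw [add_sub_cancel, ← hX] at h2
  have h3 : (1 + |u - t|) ^ n ≤ (1 + H₀) ^ n := by gcongr
  calc ‖F (1 / 2 + u * I)‖ ≤ A * (c * (1 + |u|) ^ n) := h1
    _ ≤ A * (X * (1 + H₀) ^ n) := by
        have : c * (1 + |u|) ^ n ≤ X * (1 + H₀) ^ n := h2.trans (by gcongr)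
        gcongr
    _ = (A * (1 + H₀) ^ n) * X := by ring
    _ ≤ X * X := by gcongr
    _ = X ^ 2 := by ring

/-- The contradiction at a large value. -/
lemma large_value {F : ℂ → ℂ} {c A B : ℝ} {n : ℕ} {κ ε₀ η ε σ δ τ t a b X Q Λ D H₀ W η' K₁ : ℝ}
    {J : ℕ}
    (hF : DifferentiableOn ℂ F {s | 0 < s.re}) (hA : 1 ≤ A) (hc : 1 ≤ c)
    (hgrow : ∀ s : ℂ, 1 / 4 ≤ s.re → ‖F s‖ ≤ A * (c * (1 + |s.im|) ^ n))
    (hrefl : ∀ x t : ℝ, 0 < x → x ≤ 1 / 4 → ‖F (1 / 2 - x + t * I)‖ ≤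
      A * (c * (1 + |t|) ^ n) ^ x * ‖F (1 / 2 + x + t * I)‖)
    (hB : 1 ≤ B) (hedge : ∀ s : ℂ, s.re = 1 + δ → ‖F s‖ ≤ B * c ^ δ)
    (hκ : 0 < κ) (hκ1 : κ ≤ 1) (hε₀ : 0 < ε₀) (hε₀1 : ε₀ ≤ 1) (hη : 0 < η) (hηε : η ≤ ε)
    (hε : 0 < ε)
    (hJ : 0 < J) (hτ : τ = ε₀ / (8 * κ)) (hJr : 1 - τ ≤ ell J / (J + 1))
    (hW : W = 4 * J * κ * (Real.log (32 * Real.exp 1 ^ 2 / κ) + 1) + 7 * (J + 1) + 1)
    (hL0 : 0 ≤ Real.log (32 * Real.exp 1 ^ 2 / κ))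
    (hεW : ε * W ≤ ε₀ / 8) (hη4 : (J + 1) * η ≤ 1 / 4) (hσ : σ = η * ε₀ / 64)
    (hη' : η' = (1 + 1 / J) * η)
    (hδ : δ = ε₀ / 64) (hH₀ : H₀ = 4 / σ) (hX : X = c * (1 + |t|) ^ n) (hX1 : 1 < X)
    (hΛ : Λ = Real.log X) (hD : D = n * Real.log (1 + H₀)) (hQ : Q = X * (1 + H₀) ^ n)
    (hXA : A * (1 + H₀) ^ n ≤ X) (hXe : A * Real.exp n ≤ X)
    (hK₁ : K₁ = A * 2 ^ n * (4 ^ (n * 3) * B))
    (q3 : 1 / (κ * η) ≤ Λ) (q4 : J / η ≤ Λ) (q5 : 8 * D / ε₀ ≤ Λ) (q6 : 2 / ε₀ ≤ Λ)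
    (q7 : (Real.log (2 * (K₁ + 1)) + 2 * κ * η * ell J * D + 1) * (8 / (η * ε₀)) ≤ Λ)
    (ha0 : 0 ≤ a) (hb : b = max a ((1 - 2 * Real.pi * κ) / 4))
    (hwin : ∀ t' : ℝ, |t' - t| ≤ 2 / σ + 1 → ∃ Z : Finset ℝ,
          κ * η * Λ ≤ Z.card ∧
          (∀ u ∈ Z, u ∈ Icc t' (t' + η) ∧ ‖F (1 / 2 + u * I)‖ ≤ X ^ a) ∧
          ∀ u ∈ Z, ∀ v ∈ Z, u ≠ v → Real.exp (-(ε / η)) / Λ ≤ |u - v|)
    (hcon : X ^ (b + ε₀) < ‖F (1 / 2 + t * I)‖) : False := by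
  have hX0 : 0 < X := by linarith
  have hΛ0 : 0 < Λ := by rw [hΛ]; exact Real.log_pos hX1
  have hJ0 : (0:ℝ) < J := by exact_mod_cast hJ
  have hJ1 : (1:ℝ) ≤ J := by exact_mod_cast hJ
  have hη1 : η ≤ 1 := by nlinarith
  have hσ0 : 0 < σ := by rw [hσ]; positivity
  have hσle : σ ≤ ε₀ / 64 := by
    rw [hσ]
    have : η * ε₀ ≤ 1 * ε₀ := by gcongr
    linarith
  have hσ1 : σ ≤ 1 := by linarith
  have hδ0 : 0 < δ := by rw [hδ]; positivity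
  have hδ1 : δ ≤ 1 / 2 := by rw [hδ]; linarith
  have hH₀0 : 0 < H₀ := by rw [hH₀]; positivity
  have hlogH : 0 ≤ Real.log (1 + H₀) := Real.log_nonneg (by linarith)
  have hD0 : 0 ≤ D := by rw [hD]; positivity
  have hK₁0 : 0 ≤ K₁ := by
    have : 0 ≤ B := by linarith
    have : 0 ≤ A := by linarith
    rw [hK₁]
    positivity
  have hup : ∀ u : ℝ, |u - t| ≤ H₀ → ‖F (1 / 2 + u * I)‖ ≤ X ^ 2 := fun u hu =>
    growth_near (by linarith) (by linarith) hX hgrow hXA hu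
  have hab : a ≤ b := by rw [hb]; exact le_max_left _ _
  have hb0 : 0 ≤ b := ha0.trans hab
  have hb2 : b + ε₀ < 2 := by
    by_contra h2
    push Not at h2
    have h3 := hup t (by simpa using hH₀0.le)
    have h4 : X ^ 2 ≤ X ^ (b + ε₀) := by
      rw [← Real.rpow_two]
      exact Real.rpow_le_rpow_of_exponent_le hX1.le h2
    linarith
  have hbig : 1 ≤ ‖F (1 / 2 + t * I)‖ :=
    (Real.one_le_rpow hX1.le (by linarith)).trans hcon.le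
  obtain ⟨t₀, ht₀1, ht₀2, ht₀3, ht₀4⟩ := exists_record hF hX1.le hσ0 hH₀0.le t hbig hup
  rw [← hΛ] at ht₀1
  have ht₀σ : |t₀ - t| ≤ 2 / σ := by
    have h1 : σ * |t₀ - t| ≤ 2 := le_of_mul_le_mul_right ht₀1 hΛ0
    rw [le_div_iff₀ hσ0]
    linarith
  obtain ⟨M, hM⟩ : ∃ M, M = ‖F (1 / 2 + t₀ * I)‖ := ⟨_, rfl⟩
  rw [← hM] at ht₀3 ht₀4
  have hMb : X ^ (b + ε₀) ≤ M := hcon.le.trans ht₀3
  have hM1 : 1 ≤ M := hbig.trans ht₀3
  have hM0 : 0 < M := by linarith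
  have hMX : M ≤ X ^ 2 := by rw [hM]; exact hup t₀ ht₀2
  have hHn : (1:ℝ) ≤ (1 + H₀) ^ n := one_le_pow₀ (by linarith)
  have hXQ : X ≤ Q := by rw [hQ]; exact le_mul_of_one_le_right hX0.le hHn
  have hQ0 : 0 < Q := by linarith
  have hQ1 : 1 < Q := by linarith
  have hlogQ : Real.log Q = Λ + D := by
    rw [hQ, Real.log_mul hX0.ne' (by positivity), Real.log_pow, hΛ, hD]
  have hcX : c ≤ X := by
    have : (1:ℝ) ≤ (1 + |t|) ^ n := one_le_pow₀ (by linarith [abs_nonneg t])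
    rw [hX]
    exact le_mul_of_one_le_right (by linarith) this
  have hcomp := conductor_comp (v := 0) (by linarith : 0 ≤ c) hX hQ ht₀2
  have hD8 : 8 * D ≤ ε₀ * Λ := by
    rw [div_le_iff₀ hε₀] at q5
    linarith
  obtain ⟨hMQ, hba', ha3, hQa'⟩ := record_exponent hX0 hQ1 hΛ hlogQ hD0 hε₀ hb0 hb2 hσ0 hσ1 hD8
    hM0 hMb hMX
  obtain ⟨a', ha'⟩ : ∃ a', a' = Real.log M / Real.log Q + σ / 4 := ⟨_, rfl⟩
  rw [← ha'] at hba' ha3 hQa'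
  have hJη' : J * η' = (J + 1) * η := by rw [hη']; field_simp
  have hgapη : η' - η = η / J := by rw [hη']; ring
  have hηη' : η < η' := by
    have : 0 < η / J := by positivity
    linarith
  have hη'0 : 0 < η' := by linarith
  have hη'2 : η' ≤ 2 * η := by
    rw [hη']
    have : 1 / (J : ℝ) ≤ 1 := by
      rw [div_le_one hJ0]
      exact hJ1
    gcongr
    linarith
  have hR4 : J * η' ≤ 1 / 4 := by rw [hJη']; exact hη4
  obtain ⟨m₁, hm₁⟩ : ∃ m₁, m₁ = Real.exp (-(ε / η)) := ⟨_, rfl⟩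
  rw [← hm₁] at hwin
  have hm0 : 0 < m₁ := by rw [hm₁]; exact Real.exp_pos _
  have hm1 : m₁ ≤ 1 := by
    rw [hm₁]
    apply Real.exp_le_one_iff.mpr
    have : 0 ≤ ε / η := by positivity
    linarith
  have hκη : 0 < κ * η := by positivity
  have hκηΛ : 1 ≤ κ * η * Λ := by
    rw [div_le_iff₀ hκη] at q3
    linarith
  have hgapΛ : m₁ / Λ ≤ η' - η := by
    rw [hgapη, div_le_div_iff₀ hΛ0 hJ0]
    rw [div_le_iff₀ hη] at q4
    have : m₁ * J ≤ 1 * J := by gcongr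
    linarith
  obtain ⟨N, hN⟩ : ∃ N : ℕ, N = ⌈κ * η * Λ⌉₊ := ⟨_, rfl⟩
  have hNlow : κ * η * Λ ≤ N := by rw [hN]; exact Nat.le_ceil _
  have hNpos : 1 ≤ N := by
    have : (0:ℝ) < N := by linarith
    exact_mod_cast this
  obtain ⟨Z, hZc, hZ1, hZ2, hZ3⟩ := windows_points (t₀ := t₀) hJ hη hηη' hR4 hgapΛ hN
    (by linarith) hwin
  have hcard2 : 2 ≤ Z.card := by
    rw [hZc, mul_assoc]
    have : 1 ≤ J * N := Nat.one_le_iff_ne_zero.mpr (by positivity)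
    omega
  have hP := interp_le (k := Z.card) hJ hη hη'0 hη'2 hκ hκ1 hm0 hm1 hX0 hXQ ha0 hΛ hΛ0 hκηΛ hN
    hNpos hZc
  have hE0 := Eexp_nonneg (J := J) ha0 hκ hκ1 hη hm0 hm1
  have hEle : Eexp a κ η m₁ J ≤ a + ε₀ / 8 := by
    rw [hm₁]
    refine Eexp_le hκ hη hηε hL0 ?_
    refine le_trans ?_ hεW
    rw [hW]
    have : 0 ≤ ε * (7 * (J + 1) + 1) := by positivity
    linarith
  have hsabs := abs_slope_le (a' := a') hε₀ hε₀1 hδ hσle hσ0 (by linarith) ha3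
  have hslope := slope_le (a' := a') (b := b) hκ hε₀ hε₀1 hδ hσle hσ0
    (by rw [hb]; exact le_max_right _ _) hba'
  have h7R : 7 * (J * η') ≤ ε₀ / 8 := by
    rw [hJη']
    refine le_trans ?_ hεW
    rw [hW]
    have h1 : 7 * ((J + 1) * η) ≤ 7 * ((J + 1) * ε) := by gcongr
    have h2 : 0 ≤ ε * (4 * J * κ * (Real.log (32 * Real.exp 1 ^ 2 / κ) + 1) + 1) := by positivity
    linarith
  have hEa : Eexp a κ η m₁ J + |1 / 2 - (a' - (δ + σ * (1 / 2 + δ) ^ 2)) / (1 / 2 + δ)| *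
      (J * η') ≤ a' := by
    have h1 : |1 / 2 - (a' - (δ + σ * (1 / 2 + δ) ^ 2)) / (1 / 2 + δ)| * (J * η') ≤
        7 * (J * η') := by
      have : 0 ≤ J * η' := by positivity
      gcongr
    linarith
  have hpt := record_point (Q := Q) (σ := σ) (M := M) (a' := a') (B := B) (δ := δ)
    hF hA hc hgrow hrefl hB hδ0 hδ1 hedge t₀ hQ1 (hXe.trans hXQ) (hcX.trans hXQ)
    (fun v => conductor_comp (by linarith : 0 ≤ c) hX hQ ht₀2 v) hσ0 hσ1 hM1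
    (fun v hv => by
      have h1 := ht₀4 (t₀ + v) (by
        have e1 : t₀ + v - t = (t₀ - t) + v := by ring
        rw [e1]
        refine (abs_add_le _ _).trans ?_
        have e2 : H₀ = 2 / σ + 2 / σ := by rw [hH₀]; ring
        linarith)
      have e3 : t₀ + v - t₀ = v := by ring
      rw [e3] at h1
      refine h1.trans ?_
      have h2 : X ^ (σ * |v|) ≤ Q ^ (σ * |v|) := Real.rpow_le_rpow hX0.le hXQ (by positivity)
      gcongr) ha' ha3 (R := J * η') (γ := m₁ / (2 * Λ)) (E := Eexp a κ η m₁ J) (C₀ := 1)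
    (M₀ := X ^ a)
    (by positivity) hR4 (by positivity) Z hcard2 (fun v hv => ⟨(hZ1 v hv).1, (hZ1 v hv).2.2⟩)
    (fun u hu v hv huv => by
      refine le_trans ?_ (hZ2 u hu v hv huv)
      have : m₁ / (2 * Λ) = m₁ / Λ / 2 := by rw [mul_comm 2 Λ, ← div_div]
      rw [this]
      have : 0 ≤ m₁ / Λ := by positivity
      linarith) zero_le_one hP hE0 hEa
  obtain ⟨s, hs⟩ : ∃ s, s = 1 / 2 - (a' - (δ + σ * (1 / 2 + δ) ^ 2)) / (1 / 2 + δ) := ⟨_, rfl⟩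
  rw [← hM, ← hK₁, ← hs, Real.rpow_add hQ0, hQa', one_mul] at hpt
  rw [← hs] at hslope
  have hexpZ : Real.exp (-∑ v ∈ Z, Real.log (J * η' / |v|)) ≤
      Real.exp (-(2 * N * ell J)) := by
    apply Real.exp_le_exp.mpr
    linarith
  have hpt2 : M ≤ (K₁ + 1) * (M * Q ^ (σ / 4) * Q ^ (s * (2 * (J * η') / Real.pi))) *
      Real.exp (-(2 * N * ell J)) + Q ^ Eexp a κ η m₁ J := by
    refine hpt.trans ?_
    have h0 : 0 ≤ (K₁ + 1) * (M * Q ^ (σ / 4) * Q ^ (s * (2 * (J * η') / Real.pi))) := by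
      positivity
    exact add_le_add (mul_le_mul_of_nonneg_left hexpZ h0) le_rfl
  refine final_contra (b := b) (D := D) (Λ := Λ) hQ0 hM0 hMQ (by linarith) hε₀
    (by rw [hlogQ]; linarith) (ell_nonneg J) hκη.le hNlow (by rw [hlogQ]; linarith) hK₁0 hη
    (theta_le hJ hκ hη hε₀ hτ hJr hσ hslope hJη') ?_ hpt2
  rw [mul_div_assoc', div_le_iff₀ (by positivity)] at q7
  have h1 : η * ε₀ / 8 * Real.log Q = (Λ * (η * ε₀) + D * (η * ε₀)) / 8 := by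
    rw [hlogQ]; ring
  rw [h1]
  have h2 : 0 ≤ D * (η * ε₀) := by positivity
  linarith

/-- **Local sampling.** If the windows of length `η` within a bounded distance of `t` contain
sufficiently many sample points, then the bound holds at `t`. -/
theorem local_sampling {κ ε₀ : ℝ} (hκ : 0 < κ) (hκ1 : κ ≤ 1) (hε₀ : 0 < ε₀) (hε₀1 : ε₀ ≤ 1) :
    ∃ ε : ℝ, 0 < ε ∧ ∀ η : ℝ, 0 < η → η ≤ ε → ∃ H : ℝ, 0 < H ∧
      ∀ (ι : Type) (F : ι → ℂ → ℂ) (c : ι → ℝ) (n : ℕ) (A : ℝ), Adm F c n A 1 → ∃ X₀ : ℝ,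
      ∀ (i : ι) (t a : ℝ), 0 ≤ a → X₀ ≤ c i * (1 + |t|) ^ n →
        (∀ t' : ℝ, |t' - t| ≤ H → ∃ Z : Finset ℝ,
          κ * η * Real.log (c i * (1 + |t|) ^ n) ≤ Z.card ∧
          (∀ u ∈ Z, u ∈ Icc t' (t' + η) ∧
            ‖F i (1 / 2 + u * I)‖ ≤ (c i * (1 + |t|) ^ n) ^ a) ∧
          ∀ u ∈ Z, ∀ v ∈ Z, u ≠ v →
            Real.exp (-(ε / η)) / Real.log (c i * (1 + |t|) ^ n) ≤ |u - v|) →
        ‖F i (1 / 2 + t * I)‖ ≤
          (c i * (1 + |t|) ^ n) ^ (max a ((1 - 2 * Real.pi * κ) / 4) + ε₀) := by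
  have he1 : 1 ≤ Real.exp 1 := Real.one_le_exp (by norm_num)
  obtain ⟨τ, hτ⟩ : ∃ τ, τ = ε₀ / (8 * κ) := ⟨_, rfl⟩
  have hτ0 : 0 < τ := by rw [hτ]; positivity
  obtain ⟨J, hJ, hJr⟩ := ell_ratio hτ0
  have hJ0 : (0:ℝ) < J := by exact_mod_cast hJ
  have hL0 : 0 ≤ Real.log (32 * Real.exp 1 ^ 2 / κ) := by
    apply Real.log_nonneg
    rw [one_le_div hκ]
    nlinarith
  obtain ⟨W, hW⟩ : ∃ W, W = 4 * J * κ * (Real.log (32 * Real.exp 1 ^ 2 / κ) + 1) +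
    7 * (J + 1) + 1 := ⟨_, rfl⟩
  have hW0 : 0 < W := by rw [hW]; positivity
  obtain ⟨ε, hε⟩ : ∃ ε, ε = min (ε₀ / (8 * W)) (1 / (4 * ((J : ℝ) + 1))) := ⟨_, rfl⟩
  have hεpos : 0 < ε := by
    rw [hε]
    apply lt_min <;> positivity
  refine ⟨ε, hεpos, fun η hη hηε => ?_⟩
  have hεW : ε * W ≤ ε₀ / 8 := by
    calc ε * W ≤ ε₀ / (8 * W) * W := by
          gcongr
          rw [hε]
          exact min_le_left _ _
      _ = ε₀ / 8 := by field_simp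
  have hη4 : (J + 1) * η ≤ 1 / 4 := by
    calc ((J : ℝ) + 1) * η ≤ (J + 1) * (1 / (4 * (J + 1))) := by
          gcongr
          rw [hε] at hηε
          exact hηε.trans (min_le_right _ _)
      _ = 1 / 4 := by field_simp
  obtain ⟨σ, hσ⟩ : ∃ σ, σ = η * ε₀ / 64 := ⟨_, rfl⟩
  have hσ0 : 0 < σ := by rw [hσ]; positivity
  obtain ⟨H₀, hH₀⟩ : ∃ H₀, H₀ = 4 / σ := ⟨_, rfl⟩
  have hH₀0 : 0 < H₀ := by rw [hH₀]; positivity
  refine ⟨2 / σ + 1, by positivity, ?_⟩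
  intro ι F c n A hAdm
  obtain ⟨δ, hδ⟩ : ∃ δ, δ = ε₀ / 64 := ⟨_, rfl⟩
  have hδ0 : 0 < δ := by rw [hδ]; positivity
  obtain ⟨B1, hB1⟩ := hAdm.edge δ hδ0
  obtain ⟨B, hB⟩ : ∃ B, B = max B1 1 := ⟨_, rfl⟩
  have hB1' : 1 ≤ B := by rw [hB]; exact le_max_right _ _
  have hA := hAdm.one_le_A
  have hA0 : 0 < A := by linarith
  obtain ⟨K₁, hK₁⟩ : ∃ K₁, K₁ = A * 2 ^ n * (4 ^ (n * 3) * B) := ⟨_, rfl⟩
  have hK₁0 : 0 ≤ K₁ := by
    have : 0 ≤ B := by linarith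
    rw [hK₁]
    positivity
  obtain ⟨D, hD⟩ : ∃ D, D = n * Real.log (1 + H₀) := ⟨_, rfl⟩
  have hlogH : 0 ≤ Real.log (1 + H₀) := Real.log_nonneg (by linarith)
  have hD0 : 0 ≤ D := by rw [hD]; positivity
  have hell := ell_nonneg J
  have hlogK : 0 ≤ Real.log (2 * (K₁ + 1)) := Real.log_nonneg (by linarith)
  have hAH : 1 ≤ A * (1 + H₀) ^ n :=
    one_le_mul_of_one_le_of_one_le hA (one_le_pow₀ (by linarith))
  have hAe : 1 ≤ A * Real.exp n :=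
    one_le_mul_of_one_le_of_one_le hA (Real.one_le_exp (Nat.cast_nonneg n))
  have p1 : 0 ≤ Real.log (A * (1 + H₀) ^ n) := Real.log_nonneg hAH
  have p2 : 0 ≤ Real.log (A * Real.exp n) := Real.log_nonneg hAe
  have p3 : 0 < 1 / (κ * η) := by positivity
  have p4 : 0 < J / η := by positivity
  have p5 : 0 ≤ 8 * D / ε₀ := by positivity
  have p6 : 0 < 2 / ε₀ := by positivity
  have p7 : 0 < (Real.log (2 * (K₁ + 1)) + 2 * κ * η * ell J * D + 1) * (8 / (η * ε₀)) := by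
    positivity
  obtain ⟨Λ₀, hΛ₀⟩ : ∃ Λ₀, Λ₀ = Real.log (A * (1 + H₀) ^ n) + Real.log (A * Real.exp n) +
    1 / (κ * η) + J / η + 8 * D / ε₀ + 2 / ε₀ +
    (Real.log (2 * (K₁ + 1)) + 2 * κ * η * ell J * D + 1) * (8 / (η * ε₀)) := ⟨_, rfl⟩
  refine ⟨Real.exp Λ₀, ?_⟩
  intro i t a ha0 hX hwin
  obtain ⟨X, hXdef⟩ : ∃ X, X = c i * (1 + |t|) ^ n := ⟨_, rfl⟩
  rw [← hXdef] at hX hwin ⊢
  have hX0 : 0 < X := (Real.exp_pos _).trans_le hX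
  have hΛΛ : Λ₀ ≤ Real.log X := by
    rw [← Real.log_exp Λ₀]
    exact Real.log_le_log (Real.exp_pos _) hX
  obtain ⟨Λ, hΛ⟩ : ∃ Λ, Λ = Real.log X := ⟨_, rfl⟩
  rw [← hΛ] at hΛΛ hwin
  have hci := hAdm.one_le_c i
  have q1 : Real.log (A * (1 + H₀) ^ n) ≤ Λ := by linarith
  have q2 : Real.log (A * Real.exp n) ≤ Λ := by linarith
  have q3 : 1 / (κ * η) ≤ Λ := by linarith
  have hΛ0 : 0 < Λ := by linarith
  have hX1 : 1 < X := by
    rwa [hΛ, Real.log_pos_iff hX0.le] at hΛ0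
  by_contra hcon
  push Not at hcon
  refine large_value (F := F i) (c := c i) (A := A) (B := B) (n := n) (κ := κ) (ε₀ := ε₀)
    (hAdm.diff i) hA hci (fun s hs => by
      have := hAdm.grow i s hs
      rwa [pow_one] at this) (hAdm.refl i) hB1'
    (fun s hs => (hB1 i s hs).trans (by
      have h1 : B1 ≤ B := by rw [hB]; exact le_max_left _ _
      have h2 : 0 ≤ c i ^ δ := Real.rpow_nonneg (by linarith) _
      exact mul_le_mul_of_nonneg_right h1 h2)) hκ hκ1 hε₀ hε₀1 hη hηε hεpos hJ hτ hJr hW hL0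
    hεW hη4 hσ rfl hδ hH₀ hXdef hX1 hΛ hD rfl
    ((Real.log_le_log_iff (by linarith) hX0).mp (by rw [← hΛ]; exact q1))
    ((Real.log_le_log_iff (by linarith) hX0).mp (by rw [← hΛ]; exact q2)) hK₁ q3
    (by linarith) (by linarith) (by linarith) (by linarith) ha0 rfl hwin hcon

end Pool.Agent.H31.GL
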