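import Pool.Agent.H23.GLH.Points
import Pool.Agent.H23.GLH.Disc

/-! An analytic function on a disc which is not small at the centre is small only on a small set of
points near the centre. -/

set_option autoImplicit false

open Complex MeasureTheory Set Filter Topology Metric

namespace Pool.Agent.H31.GL

open Pool.Agent.H23.GLH

/-- Two-constants theorem with finitely many points, precise form. -/
theorem disc_bound' {c : ℂ} {R r g M₀ M₁ : ℝ} (hr : 0 ≤ r) (hrR : 3 * r ≤ R) (hR : 0 < R)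
    (hg : 0 < g)
    {U : Set ℂ} (hU : IsOpen U) (hcU : closedBall c R ⊆ U) (G : ℂ → ℂ)
    (hGd : DifferentiableOn ℂ G U) (hG1 : ∀ z ∈ closedBall c R, ‖G z‖ ≤ M₁)
    (Z : Finset ℂ) (hZne : 0 < Z.card) (hZ : ∀ w ∈ Z, w ∈ closedBall c r)
    (hG0 : ∀ w ∈ Z, ‖G w‖ ≤ M₀) (hM₀ : 0 ≤ M₀)
    (hsep : ∀ j ∈ Z, g ^ (Z.card - 1) ≤ ∏ i ∈ Z.erase j, ‖j - i‖) :
    ‖G c‖ ≤ 2 * (Z.card * (M₀ * (2 * r / g) ^ (Z.card - 1))) +
      M₁ * (r / (R - r)) ^ Z.card := by
  set n := Z.card with hn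
  set P := n * (M₀ * ((R + r) / g) ^ (n - 1)) with hP
  have hP0 : 0 ≤ P := by
    have : 0 ≤ (R + r) / g := by positivity
    positivity
  have hcR : c ∈ closedBall c R := mem_closedBall_self hR.le
  have hRr : 0 < R - r := by linarith
  have h1 : ∀ z ∈ closedBall c R, ‖lag Z G z‖ ≤ P := fun z hz =>
    norm_lag_le Z G hg hZ hG0 hsep hz
  have h0 : ‖lag Z G c‖ ≤ n * (M₀ * ((0 + r) / g) ^ (n - 1)) :=
    norm_lag_le Z G hg hZ hG0 hsep (mem_closedBall_self le_rfl)
  have h2 := norm_le_of_zeros (show r < R by linarith) hU hcU Z (fun z => G z - lag Z G z)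
    (M₁ + P) (hGd.sub (differentiable_lag Z G).differentiableOn)
    (fun z hz => (norm_sub_le _ _).trans (add_le_add (hG1 z hz) (h1 z hz)))
    (fun w hw => ⟨hZ w hw, by rw [lag_apply Z G hw, sub_self]⟩) c hcR
  have hM₁ : 0 ≤ M₁ := (norm_nonneg _).trans (hG1 c hcR)
  have hq1 : r / (R - r) ≤ 1 := by rw [div_le_one hRr]; linarith
  have hq0 : 0 ≤ r / (R - r) := by positivity
  have h3 : ∏ w ∈ Z, (‖c - w‖ / (R - r)) ≤ (r / (R - r)) ^ n := by
    rw [hn, ← Finset.prod_const]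
    refine Finset.prod_le_prod (fun i _ => by positivity) ?_
    intro w hw
    have : ‖c - w‖ ≤ r := by rw [← dist_eq_norm, dist_comm]; exact hZ w hw
    gcongr
  have h4 : ‖G c‖ ≤ ‖lag Z G c‖ + ‖G c - lag Z G c‖ := by
    calc ‖G c‖ = ‖lag Z G c + (G c - lag Z G c)‖ := by ring_nf
      _ ≤ _ := norm_add_le _ _
  have h5 : (M₁ + P) * ∏ w ∈ Z, (‖c - w‖ / (R - r)) ≤ (M₁ + P) * (r / (R - r)) ^ n := by
    gcongr
  have hD0 : (0 : ℝ) ≤ n * (M₀ * (2 * r / g) ^ (n - 1)) := by positivity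
  have h6 : P * (r / (R - r)) ^ n ≤ n * (M₀ * (2 * r / g) ^ (n - 1)) := by
    have e1 : n = (n - 1) + 1 := by omega
    have e2 : (r / (R - r)) ^ n = (r / (R - r)) ^ (n - 1) * (r / (R - r)) := by
      conv_lhs => rw [e1, pow_succ]
    have e3 : (R + r) / g * (r / (R - r)) ≤ 2 * r / g := by
      rw [div_mul_div_comm, div_le_div_iff₀ (by positivity) hg]
      have : (R + r) ≤ 2 * (R - r) := by linarith
      have h7 : (R + r) * r * g ≤ 2 * (R - r) * r * g := by gcongr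
      nlinarith
    rw [hP, e2]
    have e4 := mul_pow ((R + r) / g) (r / (R - r)) (n - 1)
    calc n * (M₀ * ((R + r) / g) ^ (n - 1)) * ((r / (R - r)) ^ (n - 1) * (r / (R - r)))
        = n * (M₀ * ((R + r) / g * (r / (R - r))) ^ (n - 1)) * (r / (R - r)) := by
          rw [e4]
          generalize ((R + r) / g) ^ (n - 1) = a
          generalize (r / (R - r)) ^ (n - 1) = b
          generalize r / (R - r) = d
          ring
      _ ≤ n * (M₀ * (2 * r / g) ^ (n - 1)) * 1 := by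
          have h8 : 0 ≤ (R + r) / g * (r / (R - r)) := by positivity
          have h9 := pow_le_pow_left₀ h8 e3 (n - 1)
          have hn0 : (0 : ℝ) ≤ n := Nat.cast_nonneg n
          exact mul_le_mul (mul_le_mul_of_nonneg_left (mul_le_mul_of_nonneg_left h9 hM₀) hn0)
            hq1 hq0 hD0
      _ = _ := mul_one _
  have h7 : n * (M₀ * ((0 + r) / g) ^ (n - 1)) ≤ n * (M₀ * (2 * r / g) ^ (n - 1)) := by
    have : 0 + r ≤ 2 * r := by linarith
    gcongr
  calc ‖G c‖ ≤ n * (M₀ * ((0 + r) / g) ^ (n - 1)) + (M₁ + P) * (r / (R - r)) ^ n := by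
        refine h4.trans (add_le_add h0 (h2.trans h5))
    _ = n * (M₀ * ((0 + r) / g) ^ (n - 1)) + P * (r / (R - r)) ^ n +
        M₁ * (r / (R - r)) ^ n := by ring
    _ ≤ n * (M₀ * (2 * r / g) ^ (n - 1)) + n * (M₀ * (2 * r / g) ^ (n - 1)) +
        M₁ * (r / (R - r)) ^ n := by gcongr
    _ = _ := by ring

lemma pow8 (n : ℕ) (hn : 2 ≤ n) : (8 / 3 : ℝ) * n < 8 ^ (n - 1) := by
  induction n, hn using Nat.le_induction with
  | base => norm_num
  | succ n hn ih =>
    have e1 : n + 1 - 1 = (n - 1) + 1 := by omega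
    rw [e1, pow_succ]
    push_cast
    have : (2 : ℝ) ≤ n := by exact_mod_cast hn
    nlinarith

/-- **Persistence.** Around a point at which `G` is not small, `G` is small only on a small set. -/
theorem persist {R r τ M₁ : ℝ} (hr : 0 < r) (hrR : 3 * r ≤ R)
    {U : Set ℂ} (hU : IsOpen U) (hcU : closedBall (0:ℂ) R ⊆ U) (G : ℂ → ℂ)
    (hGd : DifferentiableOn ℂ G U) (hG1 : ∀ z ∈ closedBall (0:ℂ) R, ‖G z‖ ≤ M₁) (h0 : G 0 ≠ 0)
    (hτ : 0 ≤ τ) :
    volume {v : ℝ | v ∈ Icc (-r) r ∧ ‖G (v * I)‖ ≤ Real.exp (-τ) * ‖G 0‖} ≤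
      ENNReal.ofReal (64 * Real.exp 1 * r * Real.exp (-(τ * Real.log ((R - r) / r) /
        (Real.log (2 * M₁ / ‖G 0‖) + Real.log ((R - r) / r))))) := by
  have hR : 0 < R := by linarith
  have hG0 : 0 < ‖G 0‖ := norm_pos_iff.mpr h0
  have hM : ‖G 0‖ ≤ M₁ := hG1 0 (mem_closedBall_self hR.le)
  have hM0 : 0 < M₁ := by linarith
  have hRr : 0 < R - r := by linarith
  set ell := Real.log ((R - r) / r) with hell
  set Λ := Real.log (2 * M₁ / ‖G 0‖) with hΛ
  have hratio : 2 ≤ (R - r) / r := by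
    rw [le_div_iff₀ hr]
    linarith
  have hell0 : 0 < ell := Real.log_pos (by linarith)
  have hΛ2 : 2 ≤ 2 * M₁ / ‖G 0‖ := by
    rw [le_div_iff₀ hG0]
    linarith
  have hΛ0 : 0 < Λ := Real.log_pos (by linarith)
  set x := τ * ell / (Λ + ell) with hx
  set μ := 64 * Real.exp 1 * r * Real.exp (-x) with hμ
  have he : 0 < Real.exp 1 := Real.exp_pos 1
  have hμ0 : 0 < μ := by positivity
  by_contra hcon
  push Not at hcon
  set E := {v : ℝ | v ∈ Icc (-r) r ∧ ‖G (v * I)‖ ≤ Real.exp (-τ) * ‖G 0‖} with hE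
  have hmem : ∀ v ∈ Icc (-r) r, (v : ℂ) * I ∈ closedBall (0:ℂ) r := by
    intro v hv
    rw [mem_closedBall, dist_zero_right, norm_mul, Complex.norm_I, mul_one, Complex.norm_real,
      Real.norm_eq_abs]
    exact abs_le.mpr hv
  have hEc : IsCompact E := by
    have h1 : ContinuousOn (fun v : ℝ => ‖G (v * I)‖) (Icc (-r) r) := by
      refine ContinuousOn.norm ?_
      refine hGd.continuousOn.comp (by fun_prop) fun v hv => hcU ?_
      exact closedBall_subset_closedBall (by linarith) (hmem v hv)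
    have h2 : IsClosed (Icc (-r) r ∩ (fun v : ℝ => ‖G (v * I)‖) ⁻¹'
        Iic (Real.exp (-τ) * ‖G 0‖)) :=
      h1.preimage_isClosed_of_isClosed isClosed_Icc isClosed_Iic
    exact isCompact_Icc.of_isClosed_subset h2 fun v hv => hv.1
  set n := ⌈Λ / ell⌉₊ + 1 with hn
  have hceil : 0 < ⌈Λ / ell⌉₊ := Nat.ceil_pos.mpr (by positivity)
  have hn2 : 2 ≤ n := by omega
  have hn0 : (0 : ℝ) < n := by exact_mod_cast (by omega : 0 < n)
  have hn1 : n - 1 = ⌈Λ / ell⌉₊ := by omega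
  have hlow : Λ / ell ≤ ((n - 1 : ℕ) : ℝ) := by rw [hn1]; exact Nat.le_ceil _
  have hup : ((n - 1 : ℕ) : ℝ) < Λ / ell + 1 := by
    rw [hn1]; exact Nat.ceil_lt_add_one (by positivity)
  have hncast : (n : ℝ) = ((n - 1 : ℕ) : ℝ) + 1 := by
    have : n = (n - 1) + 1 := by omega
    exact_mod_cast this
  have hvol : (n : ℝ) * (μ / n) ≤ volume.real E := by
    have e1 : (n : ℝ) * (μ / n) = μ := by field_simp
    rw [e1, measureReal_def, ← ENNReal.ofReal_le_iff_le_toReal hEc.measure_lt_top.ne]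
    exact hcon.le
  obtain ⟨Z, hZ1, hZ2, hZ3⟩ := exists_points (γ := μ / n) (by positivity) n E hEc hvol
  have hinj : Function.Injective fun v : ℝ => (v : ℂ) * I := by
    intro u v huv
    simpa using huv
  classical
  set Z' : Finset ℂ := Z.image fun v : ℝ => (v : ℂ) * I with hZ'
  have hcard' : Z'.card = n := by rw [Finset.card_image_of_injective _ hinj, hZ2]
  set g := μ / n * ((Z.card - 1 : ℕ) : ℝ) / (2 * Real.exp 1) with hg
  have hcard1 : (1 : ℝ) ≤ ((n - 1 : ℕ) : ℝ) := by exact_mod_cast (by omega : 1 ≤ n - 1)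
  have hglow : μ / (4 * Real.exp 1) ≤ g := by
    rw [hg, hZ2, hncast, div_le_div_iff₀ (by positivity) (by positivity)]
    have h1 : (1 : ℝ) / 2 ≤ ((n - 1 : ℕ) : ℝ) / (((n - 1 : ℕ) : ℝ) + 1) := by
      rw [div_le_div_iff₀ (by norm_num) (by positivity)]
      linarith
    have h2 : μ / (((n - 1 : ℕ) : ℝ) + 1) * ((n - 1 : ℕ) : ℝ) * (4 * Real.exp 1) =
        μ * (((n - 1 : ℕ) : ℝ) / (((n - 1 : ℕ) : ℝ) + 1)) * (4 * Real.exp 1) := by ring
    rw [h2]
    calc μ * (2 * Real.exp 1) = μ * (1 / 2) * (4 * Real.exp 1) := by ring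
      _ ≤ _ := by gcongr
  have hg0 : 0 < g := lt_of_lt_of_le (by positivity) hglow
  have hsep : ∀ j ∈ Z', g ^ (Z'.card - 1) ≤ ∏ i ∈ Z'.erase j, ‖j - i‖ := by
    intro j hj
    obtain ⟨v, hv, rfl⟩ := Finset.mem_image.mp hj
    have h1 := prod_dist_ge (show 0 ≤ μ / n by positivity) Z hZ3 hv
    have e0 : Z'.card - 1 = Z.card - 1 := by rw [hcard', hZ2]
    rw [e0]
    refine h1.trans (le_of_eq ?_)
    have h2 : Z'.erase ((v : ℂ) * I) = (Z.erase v).image fun v : ℝ => (v : ℂ) * I := by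
      rw [Finset.image_erase hinj]
    rw [h2, Finset.prod_image fun x _ y _ hxy => hinj hxy]
    refine Finset.prod_congr rfl fun u _ => ?_
    rw [← sub_mul, norm_mul, Complex.norm_I, mul_one, ← Complex.ofReal_sub, Complex.norm_real,
      Real.norm_eq_abs]
  have hmain := disc_bound' (c := 0) (M₀ := Real.exp (-τ) * ‖G 0‖) hr.le hrR hR hg0 hU hcU G hGd
    hG1 Z' (by rw [hcard']; omega)
    (fun w hw => by
      obtain ⟨v, hv, rfl⟩ := Finset.mem_image.mp hw
      exact hmem v (hZ1 v hv).1)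
    (fun w hw => by
      obtain ⟨v, hv, rfl⟩ := Finset.mem_image.mp hw
      exact (hZ1 v hv).2) (by positivity) hsep
  rw [hcard'] at hmain
  -- the second term
  have hsecond : M₁ * (r / (R - r)) ^ n ≤ ‖G 0‖ / 4 := by
    have e1 : r / (R - r) = Real.exp (-ell) := by
      rw [hell, Real.exp_neg, Real.exp_log (by positivity), inv_div]
    have e2 : Real.exp (-Λ) = ‖G 0‖ / (2 * M₁) := by
      rw [hΛ, Real.exp_neg, Real.exp_log (by positivity), inv_div]
    have e3 : Real.exp (-ell) ≤ 1 / 2 := by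
      rw [← e1, div_le_div_iff₀ hRr (by norm_num)]
      linarith
    have h1 : (r / (R - r)) ^ n ≤ Real.exp (-Λ) * Real.exp (-ell) := by
      rw [e1, ← Real.exp_nat_mul, ← Real.exp_add]
      apply Real.exp_le_exp.mpr
      have h2 : Λ ≤ ((n - 1 : ℕ) : ℝ) * ell := by
        rw [div_le_iff₀ hell0] at hlow
        exact hlow
      rw [hncast]
      nlinarith
    calc M₁ * (r / (R - r)) ^ n ≤ M₁ * (Real.exp (-Λ) * Real.exp (-ell)) := by gcongr
      _ ≤ M₁ * (Real.exp (-Λ) * (1 / 2)) := by gcongr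
      _ = ‖G 0‖ / 4 := by rw [e2]; field_simp; norm_num
  -- the first term
  have hfirst : 2 * (n * (Real.exp (-τ) * ‖G 0‖ * (2 * r / g) ^ (n - 1))) < 3 / 4 * ‖G 0‖ := by
    have h1 : 2 * r / g ≤ Real.exp x / 8 := by
      have h2 : 2 * r / g ≤ 2 * r / (μ / (4 * Real.exp 1)) := by gcongr
      refine h2.trans (le_of_eq ?_)
      rw [hμ, Real.exp_neg]
      field_simp
      norm_num
    have h3 : Real.exp x ^ (n - 1) ≤ Real.exp τ := by
      rw [← Real.exp_nat_mul]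
      apply Real.exp_le_exp.mpr
      have h4 : ((n - 1 : ℕ) : ℝ) * ell ≤ Λ + ell := by
        have : ((n - 1 : ℕ) : ℝ) * ell ≤ (Λ / ell + 1) * ell := by gcongr
        calc _ ≤ (Λ / ell + 1) * ell := this
          _ = Λ + ell := by field_simp
      rw [hx, mul_div_assoc', div_le_iff₀ (by positivity)]
      calc ((n - 1 : ℕ) : ℝ) * (τ * ell) = τ * (((n - 1 : ℕ) : ℝ) * ell) := by ring
        _ ≤ τ * (Λ + ell) := by gcongr
    have h5 : (2 * r / g) ^ (n - 1) ≤ Real.exp τ / 8 ^ (n - 1) := by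
      calc (2 * r / g) ^ (n - 1) ≤ (Real.exp x / 8) ^ (n - 1) := by
            have : 0 ≤ 2 * r / g := by positivity
            gcongr
        _ = Real.exp x ^ (n - 1) / 8 ^ (n - 1) := by rw [div_pow]
        _ ≤ _ := by gcongr
    have h6 := pow8 n hn2
    have h8 : (0 : ℝ) < 8 ^ (n - 1) := by positivity
    have hexp : Real.exp (-τ) * Real.exp τ = 1 := by rw [← Real.exp_add]; simp
    calc 2 * (n * (Real.exp (-τ) * ‖G 0‖ * (2 * r / g) ^ (n - 1)))
        ≤ 2 * (n * (Real.exp (-τ) * ‖G 0‖ * (Real.exp τ / 8 ^ (n - 1)))) := by gcongr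
      _ = 2 * (n / 8 ^ (n - 1)) * ‖G 0‖ * (Real.exp (-τ) * Real.exp τ) := by ring
      _ = 2 * (n / 8 ^ (n - 1)) * ‖G 0‖ := by rw [hexp, mul_one]
      _ < 3 / 4 * ‖G 0‖ := by
          have h9 : (n : ℝ) / 8 ^ (n - 1) < 3 / 8 := by
            rw [div_lt_iff₀ h8]
            linarith
          nlinarith
  linarith

end Pool.Agent.H31.GL
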