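import Pool.Agent.H31.GL.Gauss
import Pool.Agent.H31.GL.Persist
import Pool.Agent.H23.GLM.Sample

/-! Values in one short window of the critical line. -/

set_option autoImplicit false

open Complex MeasureTheory Set Filter Topology Metric

namespace Pool.Agent.H31.GL

open Pool.Agent.H23.GLH Pool.Agent.H23.GLM

lemma log_seven_lt : Real.log 7 < 2 := by
  rw [Real.log_lt_iff_lt_exp (by norm_num)]
  have h1 := Real.exp_one_gt_d9
  have h2 : Real.exp 2 = Real.exp 1 * Real.exp 1 := by rw [← Real.exp_add]; norm_num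
  rw [h2]
  nlinarith

lemma log_six_lt : Real.log 6 < 2 :=
  (Real.log_lt_log (by norm_num) (by norm_num)).trans log_seven_lt

lemma log_seven_gt : 1 < Real.log 7 := by
  rw [Real.lt_log_iff_exp_lt (by norm_num)]
  have h1 := Real.exp_one_lt_d9
  linarith

lemma log_sixtyfour_lt : Real.log 64 < 5 := by
  have h : Real.log 64 = 6 * Real.log 2 := by
    rw [show (64:ℝ) = 2 ^ 6 by norm_num, Real.log_pow]
    norm_num
  rw [h]
  have := Real.log_two_lt_d9
  linarith

/-- The numbers of the window law. -/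
lemma window_numbers {η ε A₀ τ L Λ' : ℝ} (hA₀ : 0 ≤ A₀) (hε : 0 < ε) (hε1 : ε ≤ 1) (hη : 0 < η)
    (hη1 : η ≤ Real.exp (-(16 * (1 + A₀) / ε))) (hL : 0 < L)
    (hτ : 7 / 4 * (ε * L) ≤ τ)
    (hsum : Λ' + Real.log ((1 / 4 - η) / η) ≤ (1 + A₀) * L)
    (hpos : 0 < Λ' + Real.log ((1 / 4 - η) / η)) :
    64 * Real.exp 1 * η * Real.exp (-(τ * Real.log ((1 / 4 - η) / η) /
      (Λ' + Real.log ((1 / 4 - η) / η)))) ≤ η ^ (1 + ε / (1 + A₀)) := by
  have hA1 : 0 < 1 + A₀ := by linarith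
  obtain ⟨ε', hε'⟩ : ∃ ε', ε' = ε / (1 + A₀) := ⟨_, rfl⟩
  have hε'0 : 0 < ε' := by rw [hε']; positivity
  have hε'1 : ε' ≤ 1 := by
    rw [hε', div_le_one hA1]
    linarith
  have hlogη : Real.log η ≤ -(16 / ε') := by
    have h1 := Real.log_le_log hη hη1
    rw [Real.log_exp] at h1
    refine h1.trans (le_of_eq ?_)
    rw [hε']
    field_simp
  have hη12 : η ≤ 1 / 12 := by
    refine hη1.trans ?_
    have h1 : (16:ℝ) ≤ 16 * (1 + A₀) / ε := by
      rw [le_div_iff₀ hε]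
      nlinarith
    have h2 : Real.exp (-(16 * (1 + A₀) / ε)) ≤ Real.exp (-16) := by
      apply Real.exp_le_exp.mpr
      linarith
    refine h2.trans ?_
    rw [Real.exp_neg, one_div]
    apply inv_anti₀ (by norm_num)
    have := Real.add_one_le_exp (16:ℝ)
    linarith
  obtain ⟨l, hl⟩ : ∃ l, l = Real.log ((1 / 4 - η) / η) := ⟨_, rfl⟩
  rw [← hl] at hsum hpos ⊢
  have hlge : -Real.log 6 - Real.log η ≤ l := by
    have h1 : Real.log (1 / (6 * η)) = -Real.log 6 - Real.log η := by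
      rw [one_div, Real.log_inv, Real.log_mul (by norm_num) hη.ne']
      ring
    rw [← h1, hl]
    apply Real.log_le_log (by positivity)
    rw [div_le_div_iff₀ (by positivity) hη]
    nlinarith
  have hl0 : 0 ≤ l := by
    have h2 : (16:ℝ) ≤ 16 / ε' := by
      rw [le_div_iff₀ hε'0]
      linarith
    have h3 := log_six_lt
    linarith
  have hfrac : 7 / 4 * ε' * l ≤ τ * l / (Λ' + l) := by
    rw [le_div_iff₀ hpos]
    have h1 : 7 / 4 * ε' * (Λ' + l) ≤ τ := by
      refine le_trans ?_ hτ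
      calc 7 / 4 * ε' * (Λ' + l) ≤ 7 / 4 * ε' * ((1 + A₀) * L) := by gcongr
        _ = 7 / 4 * (ε * L) := by rw [hε']; field_simp
    calc 7 / 4 * ε' * l * (Λ' + l) = 7 / 4 * ε' * (Λ' + l) * l := by ring
      _ ≤ τ * l := by gcongr
  have e1 : 64 * Real.exp 1 * η * Real.exp (-(τ * l / (Λ' + l))) =
      Real.exp (Real.log 64 + 1 + Real.log η + -(τ * l / (Λ' + l))) := by
    rw [Real.exp_add, Real.exp_add, Real.exp_add, Real.exp_log (by norm_num), Real.exp_log hη]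
  rw [e1, Real.rpow_def_of_pos hη, ← hε']
  apply Real.exp_le_exp.mpr
  have h1 : 7 / 4 * ε' * (-Real.log 6 - Real.log η) ≤ 7 / 4 * ε' * l := by gcongr
  have h2 : 3 / 4 * ε' * Real.log η ≤ -12 := by
    have h3 : 3 / 4 * ε' * Real.log η ≤ 3 / 4 * ε' * (-(16 / ε')) := by gcongr
    refine h3.trans (le_of_eq ?_)
    field_simp
    norm_num
  have h3 : 7 / 4 * ε' * Real.log 6 ≤ 7 / 2 := by
    have h4 := log_six_lt
    have h5 : 0 < Real.log 6 := Real.log_pos (by norm_num)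
    nlinarith
  have h4 := log_sixtyfour_lt
  linarith

variable {ι : Type*} {F : ι → ℂ → ℂ} {c : ι → ℝ} {n : ℕ} {A : ℝ}

/-- The set of small values, seen from `u₁`. -/
lemma volume_shift {P : ℝ → Prop} {E' : Set ℝ} {s : Set ℝ} (u₁ : ℝ)
    (h : ∀ u ∈ s, P u → u - u₁ ∈ E') : volume {u : ℝ | u ∈ s ∧ P u} ≤ volume E' := by
  have h1 : {u : ℝ | u ∈ s ∧ P u} ⊆ (fun u => u + -u₁) ⁻¹' E' := by
    intro u hu
    exact h u hu.1 hu.2
  refine (measure_mono h1).trans (le_of_eq ?_)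
  exact measure_preimage_add_right volume (-u₁) E'

/-- **The law for one window.** -/
theorem window_law (h : Adm F c n A 1) {A₀ ε η : ℝ} (hA₀ : 0 ≤ A₀) (hε : 0 < ε) (hε1 : ε ≤ 1)
    (hη : 0 < η) (hη1 : η ≤ Real.exp (-(16 * (1 + A₀) / ε))) :
    ∃ K : ℝ, ∀ (i : ι) (t a : ℝ), -A₀ ≤ a → K ≤ c i * (1 + |t|) ^ n →
      ∀ u₁ ∈ Icc t (t + η), (c i * (1 + |t|) ^ n) ^ (a + ε) < 7 * ‖F i (1 / 2 + u₁ * I)‖ →
      volume {u : ℝ | u ∈ Icc t (t + η) ∧
        ‖F i (1 / 2 + u * I)‖ ≤ (c i * (1 + |t|) ^ n) ^ (a - ε)} ≤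
        ENNReal.ofReal (η ^ (1 + ε / (1 + A₀))) := by
  have hη12 : η ≤ 1 / 12 := by
    refine hη1.trans ?_
    have h1 : (16:ℝ) ≤ 16 * (1 + A₀) / ε := by
      rw [le_div_iff₀ hε]
      nlinarith
    have h2 : Real.exp (-(16 * (1 + A₀) / ε)) ≤ Real.exp (-16) := by
      apply Real.exp_le_exp.mpr
      linarith
    refine h2.trans ?_
    rw [Real.exp_neg, one_div]
    apply inv_anti₀ (by norm_num)
    have := Real.add_one_le_exp (16:ℝ)
    linarith
  have hA := h.one_le_A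
  have h2n : (1:ℝ) ≤ 2 ^ n := one_le_pow₀ (by norm_num)
  have hA14 : 1 ≤ 14 * (A * 2 ^ n) := by nlinarith [one_le_mul_of_one_le_of_one_le hA h2n]
  have hl0 : 0 < Real.log ((1 / 4 - η) / η) := by
    apply Real.log_pos
    rw [lt_div_iff₀ hη]
    linarith
  obtain ⟨L₀, hL₀⟩ : ∃ L₀, L₀ = 8 / ε +
    (Real.log (14 * (A * 2 ^ n)) + Real.log ((1 / 4 - η) / η)) / ε := ⟨_, rfl⟩
  have p1 : 0 < 8 / ε := by positivity
  have p2 : 0 < (Real.log (14 * (A * 2 ^ n)) + Real.log ((1 / 4 - η) / η)) / ε := by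
    have := Real.log_nonneg hA14
    positivity
  refine ⟨Real.exp L₀, ?_⟩
  intro i t a ha hX u₁ hu₁ hbig
  obtain ⟨X, hXdef⟩ : ∃ X, X = c i * (1 + |t|) ^ n := ⟨_, rfl⟩
  rw [← hXdef] at hX hbig ⊢
  have hX0 : 0 < X := (Real.exp_pos _).trans_le hX
  obtain ⟨L, hL⟩ : ∃ L, L = Real.log X := ⟨_, rfl⟩
  have hLL : L₀ ≤ L := by
    rw [hL, ← Real.log_exp L₀]
    exact Real.log_le_log (Real.exp_pos _) hX
  have q1 : 8 / ε ≤ L := by linarith
  have q2 : (Real.log (14 * (A * 2 ^ n)) + Real.log ((1 / 4 - η) / η)) / ε ≤ L := by linarith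
  have hL0 : 0 < L := by linarith
  rw [div_le_iff₀ hε] at q1 q2
  have hci := h.one_le_c i
  set G : ℂ → ℂ := fun z => F i (1 / 2 + u₁ * I + z) with hG
  have hUo : IsOpen {s : ℂ | 0 < s.re} := isOpen_lt continuous_const Complex.continuous_re
  set U : Set ℂ := {z : ℂ | -(1 / 2) < z.re} with hUdef
  have hU : IsOpen U := isOpen_lt continuous_const Complex.continuous_re
  have hsub : closedBall (0:ℂ) (1 / 4) ⊆ U := by
    intro z hz
    have h1 : ‖z‖ ≤ 1 / 4 := by simpa using hz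
    have h2 := (abs_le.mp ((Complex.abs_re_le_norm z).trans h1)).1
    show -(1 / 2) < z.re
    linarith
  have hGd : DifferentiableOn ℂ G U := by
    intro z hz
    have hz' : -(1 / 2) < z.re := hz
    have h1 : 0 < (1 / 2 + u₁ * I + z : ℂ).re := by simp; linarith
    have h2 : DifferentiableAt ℂ (F i) (1 / 2 + u₁ * I + z) :=
      (h.diff i _ h1).differentiableAt (hUo.mem_nhds h1)
    exact (h2.comp z ((differentiableAt_const _).add differentiableAt_id)).differentiableWithinAt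
  have hGv : ∀ v : ℝ, G (v * I) = F i (1 / 2 + ((u₁ + v : ℝ) : ℂ) * I) := by
    intro v
    simp only [hG]
    congr 1
    push_cast
    ring
  have hG0 : G 0 = F i (1 / 2 + u₁ * I) := by simp [hG]
  have hG1 : ∀ z ∈ closedBall (0:ℂ) (1 / 4), ‖G z‖ ≤ A * 2 ^ n * X := by
    intro z hz
    have h1 : ‖z‖ ≤ 1 / 4 := by simpa using hz
    have hre := (abs_le.mp ((Complex.abs_re_le_norm z).trans h1)).1
    have him := (Complex.abs_im_le_norm z).trans h1
    have h2 := h.grow i (1 / 2 + u₁ * I + z) (by simp; linarith)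
    have h3 : (1 / 2 + u₁ * I + z : ℂ).im = t + (u₁ - t + z.im) := by
      simp
      ring
    rw [h3, pow_one] at h2
    have h4 := qcomp (show 0 ≤ c i by linarith) n t (u₁ - t + z.im)
    rw [← hXdef] at h4
    have h5 : |u₁ - t + z.im| ≤ 1 := by
      refine (abs_add_le _ _).trans ?_
      rw [abs_of_nonneg (by linarith [hu₁.1] : 0 ≤ u₁ - t)]
      linarith [hu₁.2]
    have h6 : (1 + |u₁ - t + z.im|) ^ n ≤ 2 ^ n := by
      apply pow_le_pow_left₀ (by positivity)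
      linarith
    calc ‖G z‖ ≤ A * (c i * (1 + |t + (u₁ - t + z.im)|) ^ n) := h2
      _ ≤ A * (X * 2 ^ n) := by
          have : c i * (1 + |t + (u₁ - t + z.im)|) ^ n ≤ X * 2 ^ n := h4.trans (by gcongr)
          gcongr
      _ = _ := by ring
  have hXa : 0 < X ^ (a + ε) := Real.rpow_pos_of_pos hX0 _
  have hG0pos : 0 < ‖G 0‖ := by rw [hG0]; linarith
  have hG0ne : G 0 ≠ 0 := norm_pos_iff.mp hG0pos
  obtain ⟨τ, hτ⟩ : ∃ τ, τ = 2 * ε * L - Real.log 7 := ⟨_, rfl⟩
  have h7 := log_seven_lt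
  have hτge : 7 / 4 * (ε * L) ≤ τ := by rw [hτ]; linarith
  have hτ0 : 0 ≤ τ := by
    refine le_trans ?_ hτge
    positivity
  have hp := persist (τ := τ) (R := 1 / 4) (r := η) hη (by linarith) hU hsub G hGd hG1 hG0ne hτ0
  refine le_trans ?_ (hp.trans ?_)
  · refine volume_shift u₁ ?_
    intro u hu hsmall
    refine ⟨⟨by linarith [hu.1, hu₁.2], by linarith [hu.2, hu₁.1]⟩, ?_⟩
    rw [hGv]
    have e1 : u₁ + (u - u₁) = u := by ring
    rw [e1]
    refine hsmall.trans ?_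
    have e2 : X ^ (a - ε) = Real.exp (-τ) * (X ^ (a + ε) / 7) := by
      have e3 : Real.exp (-τ) = X ^ (-(2 * ε)) * 7 := by
        rw [hτ, Real.rpow_def_of_pos hX0, ← hL]
        have : -(2 * ε * L - Real.log 7) = L * -(2 * ε) + Real.log 7 := by ring
        rw [this, Real.exp_add, Real.exp_log (by norm_num)]
      rw [e3]
      have e4 : X ^ (a - ε) = X ^ (-(2 * ε)) * X ^ (a + ε) := by
        rw [← Real.rpow_add hX0]
        congr 1
        ring
      rw [e4]
      ring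
    rw [e2, hG0]
    gcongr
    linarith
  · apply ENNReal.ofReal_le_ofReal
    have hM1 : ‖G 0‖ ≤ A * 2 ^ n * X := hG1 0 (mem_closedBall_self (by norm_num))
    have hΛ'0 : 0 < Real.log (2 * (A * 2 ^ n * X) / ‖G 0‖) := by
      apply Real.log_pos
      rw [lt_div_iff₀ hG0pos]
      linarith
    refine window_numbers (L := L) hA₀ hε hε1 hη hη1 hL0 hτge ?_ (by linarith)
    have h1 : Real.log (2 * (A * 2 ^ n * X) / ‖G 0‖) ≤
        Real.log (14 * (A * 2 ^ n)) + L - (a + ε) * L := by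
      have h2 : 2 * (A * 2 ^ n * X) / ‖G 0‖ ≤ 14 * (A * 2 ^ n) * X / X ^ (a + ε) := by
        rw [div_le_div_iff₀ hG0pos hXa, hG0]
        have h3 : 2 * (A * 2 ^ n * X) * X ^ (a + ε) ≤
            2 * (A * 2 ^ n * X) * (7 * ‖F i (1 / 2 + u₁ * I)‖) := by
          gcongr
        refine h3.trans (le_of_eq ?_)
        ring
      refine (Real.log_le_log (by positivity) h2).trans (le_of_eq ?_)
      rw [Real.log_div (by positivity) hXa.ne', Real.log_mul (by positivity) hX0.ne',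
        Real.log_rpow hX0, ← hL]
    have h2 : -A₀ * L ≤ a * L := by gcongr
    linarith

end Pool.Agent.H31.GL
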